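import Pool.Agent.P.MP_f981b0_an.PB.Asym

/-!
The case where the powers of the adjoint do not tend to zero, and the final theorem.
-/

set_option autoImplicit false

noncomputable section

namespace Pool.Agent.P.MP_f981b0_an.PB

open Set Filter Topology Metric Complex
open scoped Real

variable {X Y : Type*} [NormedAddCommGroup X] [NormedSpace ℂ X] [CompleteSpace X]
  [NormedAddCommGroup Y] [NormedSpace ℂ Y] [CompleteSpace Y]
  {T : X →L[ℂ] X} {M : ℝ} {V : ℤ → Y →L[ℂ] Y} {W : X →L[ℂ] Y}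

def HasHyp (T : X →L[ℂ] X) : Prop :=
  ∃ K : Submodule ℂ X, IsClosed (K : Set X) ∧ K ≠ ⊥ ∧ K ≠ ⊤ ∧
    ∀ A : X →L[ℂ] X, A * T = T * A → ∀ x ∈ K, A x ∈ K

omit [CompleteSpace X] in
lemma orbit_exists (hE : Function.Surjective (NormedSpace.inclusionInDoubleDual ℂ X))
    (hM : ∀ n : ℕ, ‖T ^ n‖ ≤ M) {y : StrongDual ℂ X}
    (hy : ¬Tendsto (fun n => ‖y.comp (T ^ n)‖) atTop (𝓝 0)) :
    ∃ ξ : ℤ → X, (∀ m, ‖ξ m‖ ≤ M) ∧ (∀ m, T (ξ m) = ξ (m + 1)) ∧ y (ξ 0) ≠ 0 := by
  obtain ⟨ε, hε, hfr⟩ : ∃ ε > 0, ∃ᶠ n in atTop, ε < ‖y.comp (T ^ n)‖ := by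
    by_contra hc
    push Not at hc
    refine hy (Metric.tendsto_nhds.2 fun ε hε => ?_)
    filter_upwards [hc (ε / 2) (half_pos hε)] with n hn
    rw [dist_zero_right, norm_norm]; linarith
  obtain ⟨U, hU⟩ := Ultrafilter.exists_le (h := frequently_iff_neBot.1 hfr)
  obtain ⟨hU1, hU2⟩ := le_inf_iff.1 hU
  rw [le_principal_iff] at hU2
  have : ∀ n, ∃ x : X, ‖x‖ ≤ 1 ∧ (ε < ‖y.comp (T ^ n)‖ → ε < ‖y ((T ^ n) x)‖) := fun n => by
    by_cases h : ε < ‖y.comp (T ^ n)‖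
    · obtain ⟨x, h1, h2⟩ := (y.comp (T ^ n)).exists_lt_apply_of_lt_opNorm h
      exact ⟨x, h1.le, fun _ => h2⟩
    · exact ⟨0, by simp, fun h' => absurd h' h⟩
  choose x hx1 hx2 using this
  have hM0 : 0 ≤ M := (norm_nonneg _).trans (hM 0)
  have := fun m : ℤ => weak_lim hE U (fun n => (T ^ ((n : ℤ) + m).toNat) (x n)) 0 M fun n => by
    rw [sub_zero]
    exact ((T ^ _).le_of_opNorm_le_of_le (hM _) (hx1 n)).trans_eq (mul_one _)
  choose ξ h1 h2 using this
  refine ⟨ξ, fun m => by simpa using h1 m, fun m => ?_, fun h0 => ?_⟩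
  · refine (SeparatingDual.eq_iff_forall_dual_eq (R := ℂ)).2 fun g => ?_
    refine tendsto_nhds_unique (h2 m (g.comp T)) ((h2 (m + 1) g).congr' ?_)
    filter_upwards [hU1 (eventually_ge_atTop m.natAbs)] with n hn
    have hn' : m.natAbs ≤ n := hn
    rw [show ((n : ℤ) + (m + 1)).toNat = ((n : ℤ) + m).toNat + 1 by omega, pow_succ']
    rfl
  · have h3 := (h2 0 y).norm
    rw [h0, norm_zero] at h3
    have : ε ≤ 0 := ge_of_tendsto h3 (by
      filter_upwards [hU2] with n hn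
      simpa using (hx2 n hn).le)
    linarith

omit [CompleteSpace X] [CompleteSpace Y] in
lemma int_pow' {D : X →L[ℂ] X} {A : Y →L[ℂ] Y} (h : ∀ x, W (D x) = A (W x)) (n : ℕ) (x : X) :
    W ((D ^ n) x) = (A ^ n) (W x) := by
  induction n with
  | zero => simp
  | succ n ih => rw [pow_succ', pow_succ', mul_apply_eq_comp, mul_apply_eq_comp, h, ih]

omit [CompleteSpace Y] in
lemma Grp.rot (hV : Grp V) (θ : ℝ) : Grp fun n : ℤ => exp (n * θ * I) • V n where
  zero := by simp [hV.zero]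
  add m n := by rw [smul_mul_smul_comm, ← exp_add, hV.add]; congr 2; push_cast; ring
  norm n := by rw [norm_smul, norm_exp_int, one_mul]; exact hV.norm n

omit [CompleteSpace X] [CompleteSpace Y] in
lemma Asym.orbit (h : Asym T M V W) {ξ : ℤ → X} (hξ : ∀ m, T (ξ m) = ξ (m + 1)) (m : ℤ) :
    W (ξ m) = V m (W (ξ 0)) := by
  have a : ∀ m, W (ξ (m + 1)) = V 1 (W (ξ m)) := fun m => by rw [← hξ, h.int]
  induction m using Int.induction_on with
  | zero => simp [h.grp.zero]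
  | succ n ih => rw [a, ih, add_comm, h.grp.add]; rfl
  | pred n ih =>
    have b := a (-n - 1)
    rw [sub_add_cancel, ih] at b
    have c : V (-1) (V 1 (W (ξ (-n - 1)))) = W (ξ (-n - 1)) := by
      rw [← mul_apply_eq_comp, ← h.grp.add]; simp [h.grp.zero]
    rw [← c, ← b, ← mul_apply_eq_comp, ← h.grp.add]; congr 2; ring

omit [CompleteSpace X] [CompleteSpace Y] in
lemma ker_triv (hno : ¬HasHyp T) (L : X →L[ℂ] Y)
    (hL : ∀ A : X →L[ℂ] X, A * T = T * A → ∀ x, L x = 0 → L (A x) = 0) {x : X} (hx : x ≠ 0)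
    (hLx : L x = 0) : ∀ x, L x = 0 := by
  by_contra hc
  refine hno ⟨L.ker, L.isClosed_ker, fun hb => hx ?_, fun ht => hc fun x => ?_, hL⟩
  · exact (Submodule.eq_bot_iff _).1 hb x hLx
  · exact (Submodule.eq_top_iff'.1 ht x :)

theorem Asym.both (h : Asym T M V W) (hinj : ∀ x, W x = 0 → x = 0)
    (hhat : ∀ A : X →L[ℂ] X, A * T = T * A →
      ∃ A' : Y →L[ℂ] Y, (∀ n, A' * V n = V n * A') ∧ ∀ x, W (A x) = A' (W x))
    {ξ : ℤ → X} (hb : ∀ m, ‖ξ m‖ ≤ M) (hξ : ∀ m, T (ξ m) = ξ (m + 1)) (h0 : ξ 0 ≠ 0)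
    (hns : ∀ c : ℂ, T ≠ c • 1) : HasHyp T := by
  by_contra hno
  let a : ℝ → Y →L[ℂ] Y := fun θ => ev (fun n : ℤ => exp (n * θ * I) • V n) 1 (cp 0)
  have ha : ∀ θ : ℝ, a (θ + π) = ev (fun n : ℤ => exp (n * θ * I) • V n) 1 (cm 0) := fun θ => by
    simp only [a, ev, cm, neg_zero, smul_smul, mul_one]
    congr 1; ext1 n; congr 1
    rw [mul_right_comm (exp _), ← exp_add, mul_comm]; congr 2; push_cast; ring
  have hK : ∀ θ x, x ≠ 0 → a θ (W x) = 0 → ∀ x, a θ (W x) = 0 := fun θ x hx hx' =>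
    ker_triv hno ((a θ).comp W) (fun A hA x hx => by
      obtain ⟨A', a1, a2⟩ := hhat A hA
      have := (ev_rep (h.grp.rot θ) 1 (cp_summable 0)).commute_of (C := A') fun n => by
        rw [mul_smul_comm, smul_mul_assoc, a1]
      simp only [ContinuousLinearMap.comp_apply] at hx ⊢
      rw [a2, ← mul_apply_eq_comp, ← this, mul_apply_eq_comp, hx, map_zero]) hx hx'
  let S : Set ℝ := {θ | ∀ x, a θ (W x) = 0}
  have hS : IsClosed S := by
    have : Continuous a := continuous_tsum (fun n => by fun_prop) (cp_summable 0) fun n θ =>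
      (h.grp.rot θ).term_le _ _
    simp only [S, ofPred_forall]
    exact isClosed_iInter fun x => isClosed_eq (by fun_prop) continuous_const
  have cover : ∀ θ, θ ∈ S ∨ θ + π ∈ S := fun θ => by
    have s1 : Summable fun n : ℤ => (cm 0 n * exp (n * θ * I)) • ξ n :=
      .of_norm_bounded ((cm_summable 0).mul_right M) fun n => by
        rw [norm_smul, norm_mul, norm_exp_int, mul_one]
        exact mul_le_mul_of_nonneg_left (hb n) (norm_nonneg _)
    have e : W (∑' n : ℤ, (cm 0 n * exp (n * θ * I)) • ξ n) = a (θ + π) (W (ξ 0)) := by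
      refine (W.hasSum s1.hasSum).unique ?_
      rw [ha]
      convert! (ContinuousLinearMap.apply ℂ Y (W (ξ 0))).hasSum
        (ev_hasSum (h.grp.rot θ) 1 (cm_summable 0)) using 2 with n
      simp only [map_smul, ContinuousLinearMap.apply_apply, mul_one, smul_smul, h.orbit hξ n]
    by_cases hz : ∑' n : ℤ, (cm 0 n * exp (n * θ * I)) • ξ n = 0
    · rw [hz, map_zero] at e
      exact Or.inr (hK _ _ h0 e.symm)
    · refine Or.inl (hK _ _ hz ?_)
      rw [e, ha, ← mul_apply_eq_comp, ev_zero_div (h.grp.rot θ)]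
      rfl
  obtain ⟨θ, -, t1, t2⟩ := isPreconnected_closed_iff.1 (isPreconnected_univ (α := ℝ)) S
    ((fun θ => θ + π) ⁻¹' S) hS (hS.preimage (by fun_prop)) (fun θ _ => cover θ)
    ((cover 0).elim (fun h => ⟨_, trivial, h⟩) fun h => ⟨_, trivial, h⟩)
    ((cover 0).elim (fun h => ⟨-π, trivial, by simpa using h⟩) fun h => ⟨_, trivial, h⟩)
  have inj : ∀ (c : ℂ) (x : X), (1 - c • T) x = 0 → x = 0 := fun c x hx => by
    by_contra hx0
    have h1 := ker_triv hno (1 - c • T) (fun A hA x hx => by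
      have : (1 - c • T) * A = A * (1 - c • T) := by
        simp only [sub_mul, mul_sub, one_mul, mul_one, mul_smul_comm, smul_mul_assoc, hA]
      rw [← mul_apply_eq_comp, this, mul_apply_eq_comp, hx, map_zero]) hx0 hx
    have h2 : c • T = 1 := (sub_eq_zero.1 (ContinuousLinearMap.ext h1)).symm
    have hc : c ≠ 0 := fun hc => hx0 (by simpa [hc] using hx)
    exact hns c⁻¹ (by rw [← h2, smul_smul, inv_mul_cancel₀ hc, one_smul])
  obtain ⟨c, hc⟩ : ∃ c : ℂ, c = exp ((1 : ℤ) * θ * I) := ⟨_, rfl⟩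
  have inj2 : ∀ x : X, (1 - c • T * c • T) x = 0 → x = 0 := fun x hx => by
    have : 1 - c • T * c • T = (1 - c • T) * (1 - (-c) • T) := by
      rw [neg_smul]; generalize c • T = D; noncomm_ring
    rw [this] at hx
    exact inj _ _ (inj _ _ hx)
  have e := int_pow' (W := W) (D := 1 - c • T * c • T) (A := 1 - c • V 1 * c • V 1)
    (fun x => by simp [h.int]) 3 (ξ 0)
  rw [hc, ← ev_poly (h.grp.rot θ), ← ha, add_apply, ← hc] at e
  have e1 : a θ (W (ξ 0)) = 0 := t1 _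
  have e2 : a (θ + π) (W (ξ 0)) = 0 := t2 _
  rw [e2, e1, add_zero] at e
  exact h0 (inj2 _ (inj2 _ (inj2 _ (hinj _ e))))

theorem hyp_of_orbit (hE : Function.Surjective (NormedSpace.inclusionInDoubleDual ℂ X))
    (hM : ∀ n : ℕ, ‖T ^ n‖ ≤ M) {x₀ : X}
    (hx : ¬Tendsto (fun n : ℕ => (T ^ n) x₀) atTop (𝓝 0)) (hns : ∀ c : ℂ, T ≠ c • 1) :
    HasHyp T := by
  have hx' : WW T M hM x₀ ≠ 0 := fun h => hx ((WW_eq_zero hM).1 h)
  by_cases h0 : ∀ y : StrongDual ℂ X, Tendsto (fun n => ‖y.comp (T ^ n)‖) atTop (𝓝 0)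
  · obtain ⟨φ, h1, h2, h3⟩ := (WW_asym hM).core hE h0 hx'
    refine ⟨φ.range.topologicalClosure, Submodule.isClosed_topologicalClosure _, fun hb => h2 ?_,
      fun ht => h3 ?_, fun A hA x hx => ?_⟩
    · exact (Submodule.eq_bot_iff _).1 hb _ (Submodule.le_topologicalClosure _ ⟨x₀, rfl⟩)
    · exact Submodule.dense_iff_topologicalClosure_eq_top.2 ht
    · refine map_mem_closure A.continuous hx ?_
      rintro _ ⟨z, rfl⟩
      exact ⟨A z, (congrArg (fun D : X →L[ℂ] X => D z) (h1 A hA)).symm⟩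
  · push Not at h0
    obtain ⟨y, hy⟩ := h0
    obtain ⟨ξ, h1, h2, h3⟩ := orbit_exists hE hM hy
    by_contra hno
    refine hno ((WW_asym hM).both (fun x hx => ?_)
      (fun A hA => ⟨hat A, hat_comm A, WW_hat hM hA⟩) h1 h2 (fun h => h3 (by simp [h])) hns)
    by_contra hx0
    exact hx' (ker_triv hno (WW T M hM)
      (fun A hA x hx => by rw [WW_hat hM hA, hx, map_zero]) hx0 hx x₀)

/-- The adjoint as an operator on the dual space. -/
def adj (A : X →L[ℂ] X) : StrongDual ℂ X →L[ℂ] StrongDual ℂ X :=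
  (ContinuousLinearMap.compL ℂ X X ℂ).flip A

omit [CompleteSpace X] in
lemma adj_pow (n : ℕ) (y : StrongDual ℂ X) : (adj T ^ n) y = y.comp (T ^ n) := by
  induction n with
  | zero => rfl
  | succ n ih => rw [pow_succ', mul_apply_eq_comp, ih, pow_succ]; rfl

omit [CompleteSpace X] in
theorem hyp_of_dual_orbit (hE : Function.Surjective (NormedSpace.inclusionInDoubleDual ℂ X))
    (hM : ∀ n : ℕ, ‖T ^ n‖ ≤ M) {y₀ : StrongDual ℂ X}
    (hy : ¬Tendsto (fun n : ℕ => y₀.comp (T ^ n)) atTop (𝓝 0)) (hns : ∀ c : ℂ, T ≠ c • 1) :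
    HasHyp T := by
  have hM0 : 0 ≤ M := (norm_nonneg _).trans (hM 0)
  obtain ⟨K, k1, k2, k3, k4⟩ := hyp_of_orbit (T := adj T) (M := M) (x₀ := y₀) (fun Φ => by
      refine ⟨Φ.comp (NormedSpace.inclusionInDoubleDual ℂ X), ?_⟩
      ext Ψ
      obtain ⟨x, rfl⟩ := hE Ψ
      rfl)
    (fun n => ContinuousLinearMap.opNorm_le_bound _ hM0 fun y => by
      rw [adj_pow, mul_comm]
      exact (y.opNorm_comp_le _).trans (mul_le_mul_of_nonneg_left (hM n) (norm_nonneg _)))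
    (by simpa only [adj_pow] using hy)
    (fun c hc => hns c (ContinuousLinearMap.ext fun x =>
      (SeparatingDual.eq_iff_forall_dual_eq (R := ℂ)).2 fun g => by
        have := congrArg (fun D : StrongDual ℂ X →L[ℂ] StrongDual ℂ X => D g x) hc
        simpa [adj] using this))
  refine ⟨⨅ y : K, y.1.ker, ?_, fun hb => ?_, fun ht => k2 ?_, fun A hA x hx => ?_⟩
  · rw [Submodule.coe_iInf]
    exact isClosed_iInter fun y => y.1.isClosed_ker
  · obtain ⟨y, hy⟩ : ∃ y, y ∉ K := by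
      by_contra hc; push Not at hc; exact k3 (Submodule.eq_top_iff'.2 hc)
    obtain ⟨g, -, g2⟩ := exists_dual_vector'' ℂ (K.mkQL y)
    obtain ⟨x, hx⟩ := hE (g.comp K.mkQL)
    have hx0 : x = 0 := (Submodule.eq_bot_iff _).1 hb x ((Submodule.mem_iInf _).2 fun z => by
      have := congrArg (fun Φ : StrongDual ℂ (StrongDual ℂ X) => Φ z.1) hx
      have e : K.mkQL z.1 = 0 := (Submodule.Quotient.mk_eq_zero K).2 z.2
      simp only [ContinuousLinearMap.comp_apply, e, map_zero] at this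
      exact this)
    have := congrArg (fun Φ : StrongDual ℂ (StrongDual ℂ X) => Φ y) hx
    simp only [hx0, map_zero, ContinuousLinearMap.comp_apply, g2, zero_apply] at this
    have h3 : ‖K.mkQL y‖ = 0 := Complex.ofReal_eq_zero.1 this.symm
    exact hy ((Submodule.Quotient.mk_eq_zero K).1 (norm_eq_zero.1 h3))
  · refine (Submodule.eq_bot_iff _).2 fun y hy => ContinuousLinearMap.ext fun x => ?_
    exact (Submodule.mem_iInf _).1 (Submodule.eq_top_iff'.1 ht x) ⟨y, hy⟩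
  · refine (Submodule.mem_iInf _).2 fun y => ?_
    refine (Submodule.mem_iInf _).1 hx ⟨adj A y.1, k4 _ ?_ _ y.2⟩
    ext g z
    exact congrArg (fun D : X →L[ℂ] X => g (D z)) hA.symm

end Pool.Agent.P.MP_f981b0_an.PB
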