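import Pool.Agent.P.MP_f981b0_an.PB.Two

/-!
Absolutely convergent series in a bounded group `V : ℤ → B` of a Banach algebra.
-/

set_option autoImplicit false

noncomputable section

namespace Pool.Agent.P.MP_f981b0_an.PB

open Set Filter Topology
open scoped Real

variable {B : Type*} [NormedRing B] [NormedAlgebra ℂ B] [CompleteSpace B]

structure Grp (V : ℤ → B) : Prop where
  zero : V 0 = 1
  add : ∀ m n, V (m + n) = V m * V n
  norm : ∀ n, ‖V n‖ ≤ 1

/-- `A` is a sum `∑ c i • V (n i)` with `∑ ‖c i‖ ≤ r` and frequencies in `S`. -/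
def Rep (V : ℤ → B) (A : B) (r : ℝ) (S : Set ℤ) : Prop :=
  ∃ (ι : Type) (c : ι → ℂ) (n : ι → ℤ) (ρ : ℝ), HasSum (fun i => ‖c i‖) ρ ∧ ρ ≤ r ∧
    HasSum (fun i => c i • V (n i)) A ∧ ∀ i, c i ≠ 0 → n i ∈ S

variable {V : ℤ → B}

omit [CompleteSpace B] in
lemma Grp.term_le (hV : Grp V) (c : ℂ) (n : ℤ) : ‖c • V n‖ ≤ ‖c‖ := by
  rw [norm_smul]; exact mul_le_of_le_one_right (norm_nonneg _) (hV.norm n)

lemma Grp.summable (hV : Grp V) {ι : Type*} {c : ι → ℂ} (hc : Summable fun i => ‖c i‖)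
    (n : ι → ℤ) : Summable fun i => c i • V (n i) :=
  .of_norm_bounded hc fun _ => hV.term_le _ _

omit [CompleteSpace B] in
lemma Rep.mono {A : B} {r s : ℝ} {S U : Set ℤ} (h : Rep V A r S) (hr : r ≤ s) (hS : S ⊆ U) :
    Rep V A s U := by
  obtain ⟨ι, c, n, ρ, h1, h2, h3, h4⟩ := h
  exact ⟨ι, c, n, ρ, h1, h2.trans hr, h3, fun i hi => hS (h4 i hi)⟩

omit [CompleteSpace B] in
lemma Rep.nonneg {A : B} {r : ℝ} {S : Set ℤ} (h : Rep V A r S) : 0 ≤ r := by
  obtain ⟨ι, c, n, ρ, h1, h2, -, -⟩ := h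
  exact (h1.nonneg fun _ => norm_nonneg _).trans h2

omit [CompleteSpace B] in
lemma Rep.norm_le (hV : Grp V) {A : B} {r : ℝ} {S : Set ℤ} (h : Rep V A r S) : ‖A‖ ≤ r := by
  obtain ⟨ι, c, n, ρ, h1, h2, h3, -⟩ := h
  exact (h3.norm_le_of_bounded h1 fun _ => hV.term_le _ _).trans h2

omit [CompleteSpace B] in
lemma Rep.one (hV : Grp V) : Rep V 1 1 univ :=
  ⟨Unit, fun _ => 1, fun _ => 0, 1, by simp, le_rfl, by simp [hV.zero], fun _ _ => trivial⟩

omit [CompleteSpace B] in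
lemma Rep.add {A A' : B} {r s : ℝ} {S : Set ℤ} (h : Rep V A r S) (h' : Rep V A' s S) :
    Rep V (A + A') (r + s) S := by
  obtain ⟨ι, c, n, ρ, h1, h2, h3, h4⟩ := h
  obtain ⟨ι', c', n', ρ', h1', h2', h3', h4'⟩ := h'
  refine ⟨ι ⊕ ι', Sum.elim c c', Sum.elim n n', ρ + ρ', HasSum.sum h1 h1', add_le_add h2 h2',
    HasSum.sum h3 h3', ?_⟩
  rintro (i | i)
  exacts [h4 i, h4' i]

lemma Rep.mul (hV : Grp V) {A A' : B} {r s : ℝ} {S S' U : Set ℤ} (h : Rep V A r S)
    (h' : Rep V A' s S') (hU : ∀ a ∈ S, ∀ b ∈ S', a + b ∈ U) : Rep V (A * A') (r * s) U := by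
  have hr := h.nonneg
  obtain ⟨ι, c, n, ρ, h1, h2, h3, h4⟩ := h
  obtain ⟨ι', c', n', ρ', h1', h2', h3', h4'⟩ := h'
  refine ⟨ι × ι', fun p => c p.1 * c' p.2, fun p => n p.1 + n' p.2, ρ * ρ', ?_,
    mul_le_mul h2 h2' (h1'.nonneg fun _ => norm_nonneg _) hr, ?_, fun p hp =>
      hU _ (h4 _ (left_ne_zero_of_mul hp)) _ (h4' _ (right_ne_zero_of_mul hp))⟩
  · have s3 := h1.summable.mul_of_nonneg h1'.summable (fun _ => norm_nonneg _)
      fun _ => norm_nonneg _
    have := h1.mul h1' s3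
    simpa only [norm_mul] using this
  · have s1 : Summable fun i => ‖c i • V (n i)‖ :=
      .of_nonneg_of_le (fun _ => norm_nonneg _) (fun _ => hV.term_le _ _) h1.summable
    have s2 : Summable fun i => ‖c' i • V (n' i)‖ :=
      .of_nonneg_of_le (fun _ => norm_nonneg _) (fun _ => hV.term_le _ _) h1'.summable
    have s3 := summable_mul_of_summable_norm s1 s2
    have := h3.mul h3' s3
    simpa only [hV.add, smul_mul_smul_comm] using this

omit [CompleteSpace B] in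
lemma Rep.commute_of {A C : B} {r : ℝ} {S : Set ℤ} (h : Rep V A r S)
    (hC : ∀ n, C * V n = V n * C) : C * A = A * C := by
  obtain ⟨ι, c, n, ρ, -, -, h3, -⟩ := h
  refine (h3.mul_left C).unique ?_
  simpa only [mul_smul_comm, smul_mul_assoc, hC] using h3.mul_right C

omit [CompleteSpace B] in
lemma Rep.comm (hV : Grp V) {A A' : B} {r s : ℝ} {S S' : Set ℤ} (h : Rep V A r S)
    (h' : Rep V A' s S') : A * A' = A' * A :=
  h'.commute_of fun n => (h.commute_of fun m => by rw [← hV.add, ← hV.add, add_comm]).symm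

lemma Rep.trunc (hV : Grp V) {A : B} {r : ℝ} (h : Rep V A r univ) {δ : ℝ} (hδ : 0 < δ) :
    ∃ (d : ℕ) (A₁ : B), Rep V A₁ r (Ici (-d : ℤ)) ∧ Rep V (A - A₁) δ univ := by
  classical
  obtain ⟨ι, c, n, ρ, h1, h2, h3, -⟩ := h
  obtain ⟨s, hs⟩ := ((Metric.tendsto_nhds.1 h1) δ hδ).exists
  obtain ⟨d, hd⟩ := (s.finite_toSet.image fun i => (n i).natAbs).bddAbove
  have e1 : HasSum (fun i => ‖if i ∈ s then c i else 0‖) (∑ i ∈ s, ‖c i‖) := by
    have := hasSum_sum_of_ne_finset_zero (f := fun i => ‖if i ∈ s then c i else 0‖) (s := s)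
      (L := SummationFilter.unconditional ι) (fun i hi => by simp [hi])
    rwa [Finset.sum_congr rfl fun i hi => by rw [if_pos hi]] at this
  have e2 : HasSum (fun i => (if i ∈ s then c i else 0) • V (n i))
      (∑' i, (if i ∈ s then c i else 0) • V (n i)) := (hV.summable e1.summable n).hasSum
  refine ⟨d, _, ⟨ι, _, n, _, e1, (sum_le_hasSum s (fun _ _ => norm_nonneg _) h1).trans h2, e2,
    fun i hi => ?_⟩, ι, fun i => if i ∈ s then 0 else c i, n, ρ - ∑ i ∈ s, ‖c i‖, ?_, ?_, ?_,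
    fun _ _ => trivial⟩
  · have hi' : i ∈ s := by by_contra h; simp [h] at hi
    have := hd (mem_image_of_mem _ hi')
    simp only [mem_Ici]; omega
  · convert! h1.sub e1 using 2 with i
    by_cases hi : i ∈ s <;> simp [hi]
  · rw [Real.dist_eq, abs_lt] at hs; linarith [hs.1]
  · convert! h3.sub e2 using 2 with i
    by_cases hi : i ∈ s <;> simp [hi]

/-- The value of a coefficient sequence at the `N`-th power of the generator. -/
def ev (V : ℤ → B) (N : ℤ) (a : ℤ → ℂ) : B := ∑' n, a n • V (n * N)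

lemma ev_hasSum (hV : Grp V) (N : ℤ) {a : ℤ → ℂ} (ha : Summable fun n => ‖a n‖) :
    HasSum (fun n => a n • V (n * N)) (ev V N a) := (hV.summable ha _).hasSum

lemma ev_rep (hV : Grp V) (N : ℤ) {a : ℤ → ℂ} (ha : Summable fun n => ‖a n‖) :
    Rep V (ev V N a) (∑' n, ‖a n‖) univ :=
  ⟨ℤ, a, _, _, ha.hasSum, le_rfl, ev_hasSum hV N ha, fun _ _ => trivial⟩

lemma ev_hf (hV : Grp V) (N : ℕ) (β : ℝ) :
    Rep V (ev V N (cp β) + ev V N (cm β) - 1) (∑' n, ‖cp β n‖ + ∑' n, ‖cm β n‖) (Ici (N : ℤ)) := by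
  let c : ℤ → ℂ := fun n => if n = 0 then 0 else cp β n + cm β n
  have hb : ∀ n, ‖c n‖ ≤ ‖cp β n‖ + ‖cm β n‖ := fun n => by
    simp only [c]; split_ifs
    · simp; positivity
    · exact norm_add_le _ _
  have hs' := (cp_summable β).add (cm_summable β)
  have hs : Summable fun n => ‖c n‖ := .of_nonneg_of_le (fun _ => norm_nonneg _) hb hs'
  refine ⟨ℤ, c, fun n => n * N, _, hs.hasSum, (hs.tsum_le_tsum hb hs').trans
    ((cp_summable β).tsum_add (cm_summable β)).le, ?_, fun n hn => ?_⟩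
  · convert! ((ev_hasSum hV N (cp_summable β)).add (ev_hasSum hV N (cm_summable β))).sub
      (hasSum_ite_eq (0 : ℤ) (1 : B)) using 2 with n
    simp only [c]
    split_ifs with h
    · have := cp_add_cm_neg β 0
      simp only [Nat.cast_zero, neg_zero, pow_zero] at this
      rw [h, ← add_smul, this, zero_mul, hV.zero]; simp
    · rw [add_smul, sub_zero]
  · have h1 : 1 ≤ n := by
      by_contra h
      apply hn
      simp only [c]
      split_ifs with h0
      · rfl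
      · obtain ⟨m, rfl⟩ : ∃ m : ℕ, n = -((m + 1 : ℕ) : ℤ) := ⟨(-n - 1).toNat, by omega⟩
        rw [cp_add_cm_neg]; simp
    simp only [mem_Ici]; nlinarith [Int.natCast_nonneg N]

lemma ev_zero_div (hV : Grp V) (N : ℤ) (β γ : ℝ) : ev V N (cp β) * ev V N (cm γ) = 0 := by
  have s1 : Summable fun n => ‖cp β n • V (n * N)‖ :=
    .of_nonneg_of_le (fun _ => norm_nonneg _) (fun _ => hV.term_le _ _) (cp_summable β)
  have s2 : Summable fun n => ‖cm γ n • V (n * N)‖ :=
    .of_nonneg_of_le (fun _ => norm_nonneg _) (fun _ => hV.term_le _ _) (cm_summable γ)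
  have s3 := summable_mul_of_summable_norm s1 s2
  have h := (ev_hasSum hV N (cp_summable β)).mul (ev_hasSum hV N (cm_summable γ)) s3
  let e : ℤ × ℤ ≃ ℤ × ℤ :=
    ⟨fun p => (p.1 - p.2, p.2), fun p => (p.1 + p.2, p.2), fun p => by simp, fun p => by simp⟩
  have h2 := (e.hasSum_iff.2 h).prod_fiberwise (g := fun _ => 0) fun m => by
    have hs : Summable fun n : ℤ => cp β (m - n) * cm γ n := by
      refine .of_norm_bounded ((cm_summable γ).mul_left (∑' n, ‖cp β n‖)) fun n => ?_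
      rw [norm_mul]
      exact mul_le_mul_of_nonneg_right ((cp_summable β).le_tsum _ fun _ _ => norm_nonneg _)
        (norm_nonneg _)
    have := hs.hasSum.smul_const (V (m * N))
    rw [conv_zero, zero_smul] at this
    convert! this using 2 with n
    simp only [e, Function.comp, Equiv.coe_fn_mk, smul_mul_smul_comm, ← hV.add]
    congr 2; ring
  exact h2.unique hasSum_zero

lemma ev_poly (hV : Grp V) : ev V 1 (cp 0) + ev V 1 (cm 0) = (1 - V 1 * V 1) ^ 3 := by
  have h := (ev_hasSum hV 1 (cp_summable 0)).add (ev_hasSum hV 1 (cm_summable 0))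
  have h2 := (((hasSum_ite_eq (0 : ℤ) (V 0)).sub
    ((hasSum_ite_eq (2 : ℤ) (V 2)).const_smul (3 : ℂ))).add
    ((hasSum_ite_eq (4 : ℤ) (V 4)).const_smul (3 : ℂ))).sub (hasSum_ite_eq (6 : ℤ) (V 6))
  have e : (fun n => cp 0 n • V (n * 1) + cm 0 n • V (n * 1)) = fun n : ℤ =>
      (if n = 0 then V 0 else 0) - (3 : ℂ) • (if n = 2 then V 2 else 0) +
        (3 : ℂ) • (if n = 4 then V 4 else 0) - if n = 6 then V 6 else 0 := by
    ext n
    rw [← add_smul, cp_add_cm_zero, mul_one]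
    simp only [sub_smul, add_smul, mul_smul, ite_smul, one_smul, zero_smul]
    congr 1
    · congr 1
      · congr 1
        · split_ifs with h <;> simp [h]
        · split_ifs with h <;> simp [h]
      · split_ifs with h <;> simp [h]
    · split_ifs with h <;> simp [h]
  rw [e] at h
  have v2 : V 2 = V 1 * V 1 := hV.add 1 1
  have v4 : V 4 = V 2 * V 2 := hV.add 2 2
  have v6 : V 6 = V 4 * V 2 := hV.add 4 2
  rw [h.unique h2, hV.zero, v6, v4, ← v2]
  simp only [ofNat_smul_eq_nsmul]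
  noncomm_ring

end Pool.Agent.P.MP_f981b0_an.PB
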