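import Pool.Agent.P.MP_f981b0_an.PB.Core

/-!
The isometric asymptote of a power bounded operator: bounded two-sided sequences modulo those
that tend to zero at `+∞`, with the shift.
-/

set_option autoImplicit false

noncomputable section

namespace Pool.Agent.P.MP_f981b0_an.PB

open Set Filter Topology Metric
open scoped BoundedContinuousFunction

variable (X : Type*) [NormedAddCommGroup X] [NormedSpace ℂ X]

def nullSub : Submodule ℂ (ℤ →ᵇ X) where
  carrier := {ξ | Tendsto (fun n => ξ n) atTop (𝓝 0)}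
  add_mem' := fun ha hb => by simpa using Tendsto.add ha hb
  zero_mem' := by simp
  smul_mem' := fun c _ ha => by simpa using Tendsto.const_smul ha c

instance nullSub_closed : IsClosed (nullSub X : Set (ℤ →ᵇ X)) := by
  refine isClosed_of_closure_subset fun ξ hξ => ?_
  change Tendsto (fun n => ξ n) atTop (𝓝 0)
  refine Metric.tendsto_nhds.2 fun ε hε => ?_
  obtain ⟨η, h1, h2⟩ := Metric.mem_closure_iff.1 hξ (ε / 2) (half_pos hε)
  filter_upwards [Metric.tendsto_nhds.1 h1 (ε / 2) (half_pos hε)] with n hn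
  have := dist_triangle (ξ n) (η n) 0
  linarith [BoundedContinuousFunction.dist_coe_le_dist (f := ξ) (g := η) n]

abbrev Asy : Type _ := (ℤ →ᵇ X) ⧸ nullSub X

variable {X}

def qmap (L : (ℤ →ᵇ X) →L[ℂ] (ℤ →ᵇ X)) (h : ∀ ξ ∈ nullSub X, L ξ ∈ nullSub X) :
    Asy X →L[ℂ] Asy X :=
  (nullSub X).liftQL ((nullSub X).mkQL.comp L) fun ξ hξ =>
    (Submodule.Quotient.mk_eq_zero _).2 (h ξ hξ)

lemma qmap_mk (L : (ℤ →ᵇ X) →L[ℂ] (ℤ →ᵇ X)) (h : ∀ ξ ∈ nullSub X, L ξ ∈ nullSub X) (ξ : ℤ →ᵇ X) :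
    qmap L h (Submodule.Quotient.mk ξ) = Submodule.Quotient.mk (L ξ) := rfl

lemma qmap_norm (L : (ℤ →ᵇ X) →L[ℂ] (ℤ →ᵇ X)) (h : ∀ ξ ∈ nullSub X, L ξ ∈ nullSub X)
    (hL : ‖L‖ ≤ 1) : ‖qmap L h‖ ≤ 1 := by
  refine ContinuousLinearMap.opNorm_le_bound _ zero_le_one fun y => ?_
  rw [one_mul]
  refine le_of_forall_pos_le_add fun ε hε => ?_
  obtain ⟨ξ, rfl, h2⟩ := Submodule.Quotient.norm_mk_lt y hε
  rw [qmap_mk]
  refine (Submodule.Quotient.norm_mk_le _ _).trans ((L.le_of_opNorm_le hL ξ).trans ?_)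
  linarith

lemma asy_ext {A B : Asy X →L[ℂ] Asy X}
    (h : ∀ ξ : ℤ →ᵇ X, A (Submodule.Quotient.mk ξ) = B (Submodule.Quotient.mk ξ)) : A = B := by
  ext y
  obtain ⟨ξ, rfl⟩ := Submodule.Quotient.mk_surjective _ y
  exact h ξ

def shift (m : ℤ) : (ℤ →ᵇ X) →L[ℂ] (ℤ →ᵇ X) :=
  BoundedContinuousFunction.compContinuousCLM X ℂ ⟨fun n => n + m, continuous_of_discreteTopology⟩

def VV (m : ℤ) : Asy X →L[ℂ] Asy X :=
  qmap (shift m) fun ξ hξ =>
    Tendsto.comp (g := fun n => ξ n) hξ (tendsto_atTop_add_const_right _ m tendsto_id)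

lemma VV_mk (m : ℤ) (ξ : ℤ →ᵇ X) :
    VV m (Submodule.Quotient.mk ξ) = Submodule.Quotient.mk (shift m ξ) := rfl

lemma VV_grp : Grp (VV (X := X)) where
  zero := asy_ext fun ξ => by
    rw [VV_mk, one_apply_eq_self]
    congr 1; ext n; change ξ (n + 0) = ξ n; rw [add_zero]
  add m k := asy_ext fun ξ => by
    rw [mul_apply_eq_comp, VV_mk, VV_mk, VV_mk]
    congr 1; ext n; change ξ (n + (m + k)) = ξ (n + m + k); rw [add_assoc]
  norm m := qmap_norm _ _ (BoundedContinuousFunction.norm_compContinuousCLM_le_one _)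

def hat (A : X →L[ℂ] X) : Asy X →L[ℂ] Asy X :=
  qmap (A.compLeftContinuousBounded ℤ) fun ξ hξ => by
    have := (A.continuous.tendsto 0).comp hξ
    rw [map_zero] at this
    exact this

lemma hat_comm (A : X →L[ℂ] X) (m : ℤ) : hat A * VV m = VV m * hat A := asy_ext fun _ => rfl

def orb (T : X →L[ℂ] X) (M : ℝ) (h : ∀ n : ℕ, ‖T ^ n‖ ≤ M) : X →L[ℂ] (ℤ →ᵇ X) :=
  LinearMap.mkContinuous
    { toFun := fun x => BoundedContinuousFunction.ofNormedAddCommGroupDiscrete
        (fun n : ℤ => (T ^ n.toNat) x) (M * ‖x‖) fun n => (T ^ n.toNat).le_of_opNorm_le (h _) x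
      map_add' := fun x y => by ext n; simp
      map_smul' := fun c x => by ext n; simp } M fun x =>
    (BoundedContinuousFunction.norm_le
      (mul_nonneg ((norm_nonneg _).trans (h 0)) (norm_nonneg _))).2
      fun n => (T ^ n.toNat).le_of_opNorm_le (h _) x

def WW (T : X →L[ℂ] X) (M : ℝ) (h : ∀ n : ℕ, ‖T ^ n‖ ≤ M) : X →L[ℂ] Asy X :=
  (nullSub X).mkQL.comp (orb T M h)

variable {T : X →L[ℂ] X} {M : ℝ} (h : ∀ n : ℕ, ‖T ^ n‖ ≤ M)

lemma WW_asym : Asym T M VV (WW T M h) where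
  pow := h
  grp := VV_grp
  int x := by
    change Submodule.Quotient.mk (orb T M h (T x)) = Submodule.Quotient.mk (shift 1 (orb T M h x))
    refine (Submodule.Quotient.eq (nullSub X)).2 ?_
    change Tendsto (fun n : ℤ => (T ^ n.toNat) (T x) - (T ^ (n + 1).toNat) x) atTop (𝓝 0)
    refine tendsto_const_nhds.congr' ?_
    filter_upwards [eventually_ge_atTop 0] with n hn
    rw [Int.toNat_add hn zero_le_one, Int.toNat_one, pow_succ, mul_apply_eq_comp, sub_self]

lemma WW_eq_zero {x : X} : WW T M h x = 0 ↔ Tendsto (fun n : ℕ => (T ^ n) x) atTop (𝓝 0) := by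
  refine (Submodule.Quotient.mk_eq_zero (nullSub X) (x := orb T M h x)).trans ?_
  change Tendsto (fun n : ℤ => (T ^ n.toNat) x) atTop (𝓝 0) ↔ _
  refine ⟨fun h => ?_, fun h => h.comp ?_⟩
  · simpa [Function.comp_def] using h.comp tendsto_natCast_atTop_atTop
  · exact tendsto_atTop.2 fun b => (eventually_ge_atTop (b : ℤ)).mono fun n hn => by omega

lemma WW_hat {A : X →L[ℂ] X} (hA : A * T = T * A) (x : X) :
    WW T M h (A x) = hat A (WW T M h x) := by
  refine congrArg (Submodule.Quotient.mk (p := nullSub X))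
    (show orb T M h (A x) = A.compLeftContinuousBounded ℤ (orb T M h x) from ?_)
  ext n
  change (T ^ n.toNat) (A x) = A ((T ^ n.toNat) x)
  rw [← mul_apply_eq_comp, ← (Commute.pow_right hA _).eq, mul_apply_eq_comp]

end Pool.Agent.P.MP_f981b0_an.PB
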