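import Pool.Agent.P.MP_f981b0_an.PB.Two

/-! The choice of the exponents used at the successive scales. -/

set_option autoImplicit false

noncomputable section

namespace Pool.Agent.P.MP_f981b0_an.PB

open scoped Real

def np (β : ℝ) : ℝ := ∑' n, ‖cp β n‖

lemma np_nonneg (β : ℝ) : 0 ≤ np β := tsum_nonneg fun _ => norm_nonneg _

lemma tsum_cm (β : ℝ) : ∑' n, ‖cm β n‖ = np (-β) := by simp only [norm_cm, np]

lemma np_le : ∃ κ : ℝ, 1 ≤ κ ∧ ∀ b y : ℝ, 0 ≤ y → |b| ≤ y ^ 2 →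
    np (b * (2 / π)) ≤ Real.exp (κ + 4 * y - b) := by
  obtain ⟨κ, h1, h2⟩ := exists_kappa
  refine ⟨κ, h1, fun b y hy hb => (h2 _).2.trans ?_⟩
  have hπ := Real.pi_pos
  have e : b * (2 / π) * (π / 2) = b := by field_simp
  have h3 : |b * (2 / π)| ≤ y ^ 2 := by
    rw [abs_mul, abs_of_pos (by positivity : 0 < 2 / π)]
    refine (mul_le_of_le_one_right (abs_nonneg _) ?_).trans hb
    rw [div_le_one hπ]; exact Real.two_le_pi
  have h4 : 1 + |b * (2 / π)| ≤ Real.exp y ^ 2 := by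
    have := Real.add_one_le_exp y
    nlinarith
  rw [e, sub_eq_add_neg, Real.exp_add, Real.exp_add, show 4 * y = (4 : ℕ) * y by norm_num,
    Real.exp_nat_mul]
  gcongr
  · linarith [Real.add_one_le_exp κ]
  · calc _ ≤ (Real.exp y ^ 2) ^ 2 := by gcongr
      _ = _ := by ring

lemma exp_le_half_pow (k : ℕ) {x : ℝ} (hx : x ≤ -k) : Real.exp x ≤ (1 / 2) ^ k := by
  refine (Real.exp_le_exp.2 hx).trans ?_
  rw [show -(k : ℝ) = k * (-1) by ring, Real.exp_nat_mul]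
  gcongr
  rw [Real.exp_neg, one_div]
  exact inv_anti₀ two_pos (by linarith [Real.add_one_le_exp 1])

lemma params : ∃ (α β P Q : ℕ → ℝ) (C : ℝ), P 0 = 1 ∧ Q 0 = 1 ∧ ∀ k,
    P k * np (-β k) ≤ P (k + 1) ∧ P k * np (β k) ≤ 1 / 10 * (1 / 2) ^ (k + 1) ∧
    Q k * np (α k) < Q (k + 1) ∧ Q k * (np (α k) + np (-α k)) ≤ C * (1 / 2) ^ k ∧
    P k * Q k ≤ (1 / 2) ^ k := by
  obtain ⟨κ, h1, h2⟩ := np_le
  obtain ⟨t, ht⟩ : ∃ t, t = κ + 40 := ⟨_, rfl⟩
  obtain ⟨e, he⟩ : ∃ e, e = κ + 8 * t + 1 := ⟨_, rfl⟩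
  obtain ⟨B, hB⟩ : ∃ B, B = 3 * e + 2 := ⟨_, rfl⟩
  obtain ⟨A, hA⟩ : ∃ A, A = 2 * t ^ 2 := ⟨_, rfl⟩
  have hAB : 2 * B + 19 ≤ A := by rw [hA, hB, he, ht]; nlinarith
  have he0 : 1 ≤ e := by linarith
  refine ⟨fun k => (A * 2 ^ k + B * (3 / 2) ^ k) * (2 / π),
    fun k => (A * 2 ^ k - B * (3 / 2) ^ k) * (2 / π),
    fun k => Real.exp (A * (2 ^ k - 1) - (2 * B - 2 * e) * ((3 / 2) ^ k - 1)),
    fun k => Real.exp (-(A * (2 ^ k - 1)) - (2 * B - 2 * e) * ((3 / 2) ^ k - 1)),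
    2 * Real.exp (A + 2 * B), by simp, by simp, fun k => ?_⟩
  have r1 : 1 + (k : ℝ) * (1 / 2) ≤ (3 / 2) ^ k := by
    have := one_add_mul_le_pow (a := (1 / 2 : ℝ)) (by norm_num) k
    norm_num at this ⊢; exact this
  have r2 : (3 / 2 : ℝ) ^ k ≤ 2 ^ k := by gcongr; norm_num
  have r3 : (2 : ℝ) ^ k ≤ ((3 / 2) ^ k) ^ 2 := by
    rw [← pow_mul, mul_comm, pow_mul]; gcongr; norm_num
  simp only [pow_succ (2 : ℝ), pow_succ (3 / 2 : ℝ)]
  generalize (3 / 2 : ℝ) ^ k = ρ at *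
  generalize (2 : ℝ) ^ k = w at *
  have hk : (0 : ℝ) ≤ k := Nat.cast_nonneg k
  have hρ : 1 ≤ ρ := by linarith
  have hB0 : 0 ≤ B := by linarith
  have hBρ : 0 ≤ B * ρ := by positivity
  have hBw : B * ρ ≤ A * w := mul_le_mul (by linarith) r2 (by linarith) (by linarith)
  have hAw : 2 * (A * w) ≤ (2 * t * ρ) ^ 2 := by
    rw [hA]; nlinarith [mul_le_mul_of_nonneg_left r3 (sq_nonneg t)]
  have key : ∀ b : ℝ, |b| ≤ A * w + B * ρ → np (b * (2 / π)) ≤ Real.exp ((e - 1) * ρ - b) :=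
    fun b hb => (h2 b (2 * t * ρ) (by have : 0 ≤ t := by linarith
                                      positivity) (by linarith)).trans
      (Real.exp_le_exp.2 (by rw [he]; nlinarith))
  have k1 := key (-(A * w - B * ρ)) (by rw [abs_le]; constructor <;> linarith)
  have k2 := key (A * w - B * ρ) (by rw [abs_le]; constructor <;> linarith)
  have k3 := key (A * w + B * ρ) (by rw [abs_le]; constructor <;> linarith)
  have k4 := key (-(A * w + B * ρ)) (by rw [abs_le]; constructor <;> linarith)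
  rw [neg_mul] at k1 k4
  refine ⟨?_, ?_, ?_, ?_, ?_⟩
  · refine (mul_le_mul_of_nonneg_left k1 (Real.exp_pos _).le).trans ?_
    rw [← Real.exp_add]
    exact Real.exp_le_exp.2 (by nlinarith)
  · refine (mul_le_mul_of_nonneg_left k2 (Real.exp_pos _).le).trans ?_
    rw [← Real.exp_add]
    calc _ ≤ Real.exp (-19 + -k) := Real.exp_le_exp.2 (by rw [hB] at *; nlinarith)
      _ ≤ 1 / 20 * (1 / 2) ^ k := by
        rw [Real.exp_add]
        refine mul_le_mul ?_ (exp_le_half_pow k le_rfl) (Real.exp_pos _).le (by norm_num)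
        rw [Real.exp_neg, one_div]
        exact inv_anti₀ (by norm_num) (by linarith [Real.add_one_le_exp 19])
      _ = _ := by ring
  · refine (mul_le_mul_of_nonneg_left k3 (Real.exp_pos _).le).trans_lt ?_
    rw [← Real.exp_add]
    exact Real.exp_lt_exp.2 (by nlinarith)
  · have k5 : np ((A * w + B * ρ) * (2 / π)) ≤ Real.exp ((e - 1) * ρ - -(A * w + B * ρ)) :=
      k3.trans (Real.exp_le_exp.2 (by linarith))
    refine (mul_le_mul_of_nonneg_left (add_le_add k5 k4) (Real.exp_pos _).le).trans ?_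
    rw [← two_mul, mul_left_comm, ← Real.exp_add, mul_assoc]
    gcongr
    calc _ ≤ Real.exp (A + 2 * B + -k) := Real.exp_le_exp.2 (by rw [hB] at *; nlinarith)
      _ ≤ _ := by rw [Real.exp_add]; gcongr; exact exp_le_half_pow k le_rfl
  · rw [← Real.exp_add]
    exact exp_le_half_pow k (by rw [hB] at *; nlinarith)

end Pool.Agent.P.MP_f981b0_an.PB
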