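import Pool.Agent.P.MP_f981b0_an.PB.Alg
import Pool.Agent.P.MP_f981b0_an.PB.Param

/-!
The case where the powers of the adjoint tend to zero strongly: an operator in the bicommutant
that is not zero and does not have dense range.
-/

set_option autoImplicit false

noncomputable section

namespace Pool.Agent.P.MP_f981b0_an.PB

open Set Filter Topology Metric

variable {X Y : Type*} [NormedAddCommGroup X] [NormedSpace ℂ X] [CompleteSpace X]
  [NormedAddCommGroup Y] [NormedSpace ℂ Y] [CompleteSpace Y]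

omit [CompleteSpace X] in
lemma weak_lim (hE : Function.Surjective (NormedSpace.inclusionInDoubleDual ℂ X))
    (U : Ultrafilter ℕ) (x : ℕ → X) (x₀ : X) (r : ℝ) (hx : ∀ n, ‖x n - x₀‖ ≤ r) :
    ∃ z : X, ‖z - x₀‖ ≤ r ∧ ∀ y : StrongDual ℂ X, Tendsto (fun n => y (x n)) U (𝓝 (y z)) := by
  obtain ⟨Φ, -, h⟩ := (WeakDual.isCompact_closedBall (𝕜 := ℂ) (E := StrongDual ℂ X)
    (NormedSpace.inclusionInDoubleDual ℂ X x₀) r).ultrafilter_le_nhds
    (U.map fun n => StrongDual.toWeakDual (NormedSpace.inclusionInDoubleDual ℂ X (x n))) (by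
      rw [Ultrafilter.coe_map, le_principal_iff, mem_map]
      refine univ_mem' fun n => ?_
      have h1 := (NormedSpace.double_dual_bound ℂ X _).trans (hx n)
      rw [map_sub] at h1
      exact (dist_eq_norm (E := StrongDual ℂ (StrongDual ℂ X)) _ _).trans_le h1)
  obtain ⟨z, hz⟩ := hE (WeakDual.toStrongDual Φ)
  have hl : ∀ y : StrongDual ℂ X, Tendsto (fun n => y (x n)) U (𝓝 (y z)) := fun y => by
    have h1 : Tendsto (fun n => StrongDual.toWeakDual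
      (NormedSpace.inclusionInDoubleDual ℂ X (x n))) U (𝓝 Φ) := h
    have h2 := ((WeakDual.eval_continuous y).tendsto Φ).comp h1
    have e : Φ y = y z := by
      change WeakDual.toStrongDual Φ y = _
      rw [← hz]; rfl
    rw [e] at h2
    exact h2
  refine ⟨z, ?_, hl⟩
  obtain ⟨g, g1, g2⟩ := exists_dual_vector'' ℂ (z - x₀)
  have h3 := ((hl g).sub_const (g x₀)).norm
  rw [← map_sub, g2] at h3
  simp only [Complex.coe_algebraMap, Complex.norm_real, norm_norm] at h3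
  refine le_of_tendsto' h3 fun n => ?_
  rw [← map_sub]
  exact (g.le_of_opNorm_le g1 _).trans (by rw [one_mul]; exact hx n)

omit [CompleteSpace X] [CompleteSpace Y] in
lemma weak_lsc (hE : Function.Surjective (NormedSpace.inclusionInDoubleDual ℂ X))
    {x₀ : X} {r c c' : ℝ} (hc : c' < c) (L : X →L[ℂ] Y) (R : ℕ → X → Y)
    (hL : ∀ x, ‖x - x₀‖ ≤ r → c ≤ ‖L x‖)
    (hR : ∀ (ψ : StrongDual ℂ Y) (ε : ℝ), 0 < ε → ∀ᶠ N in atTop, ∀ x, ‖ψ (R N x)‖ ≤ ε * ‖x‖) :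
    ∀ᶠ N in atTop, ∀ x, ‖x - x₀‖ ≤ r → c' ≤ ‖L x + R N x‖ := by
  by_contra hcon
  have hfr : ∃ᶠ N in atTop, ∃ x, ‖x - x₀‖ ≤ r ∧ ‖L x + R N x‖ < c' := by
    refine (not_eventually.1 hcon).mono fun N h => ?_
    push Not at h; exact h
  obtain ⟨N₀, x₁, hx₁, -⟩ := hfr.exists
  obtain ⟨U, hU⟩ := Ultrafilter.exists_le (h := frequently_iff_neBot.1 hfr)
  obtain ⟨hU1, hU2⟩ := le_inf_iff.1 hU
  rw [le_principal_iff] at hU2
  have : ∀ N, ∃ x, ‖x - x₀‖ ≤ r ∧ ((∃ x, ‖x - x₀‖ ≤ r ∧ ‖L x + R N x‖ < c') →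
      ‖L x + R N x‖ < c') := fun N => by
    by_cases h : ∃ x, ‖x - x₀‖ ≤ r ∧ ‖L x + R N x‖ < c'
    · obtain ⟨x, h1, h2⟩ := h; exact ⟨x, h1, fun _ => h2⟩
    · exact ⟨x₁, hx₁, fun h' => absurd h' h⟩
  choose x hx1 hx2 using this
  obtain ⟨z, hz, hl⟩ := weak_lim hE U x x₀ r hx1
  obtain ⟨g, g1, g2⟩ := exists_dual_vector'' ℂ (L z)
  have h3 := (hl (g.comp L)).norm
  simp only [ContinuousLinearMap.comp_apply, g2, Complex.coe_algebraMap, Complex.norm_real,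
    norm_norm] at h3
  have hK : 0 < r + ‖x₀‖ + 1 := by linarith [norm_nonneg (x₁ - x₀), norm_nonneg x₀]
  have h4 : ‖L z‖ ≤ c' + (c - c') / 2 := by
    refine le_of_tendsto h3 ?_
    filter_upwards [hU2, hU1 (hR g ((c - c') / 2 / (r + ‖x₀‖ + 1)) (by
      have := sub_pos.2 hc; positivity))] with N h1 h2
    have a1 : ‖g (L (x N) + R N (x N))‖ ≤ c' :=
      (g.le_of_opNorm_le g1 _).trans (by rw [one_mul]; exact (hx2 N h1).le)
    have a2 : ‖x N‖ ≤ r + ‖x₀‖ + 1 := by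
      have := norm_add_le (x N - x₀) x₀
      rw [sub_add_cancel] at this; linarith [hx1 N]
    have a3 : ‖g (R N (x N))‖ ≤ (c - c') / 2 := (h2 (x N)).trans (by
      rw [div_mul_eq_mul_div, div_le_iff₀ hK]
      exact mul_le_mul_of_nonneg_left a2 (by linarith))
    have := norm_sub_le (g (L (x N) + R N (x N))) (g (R N (x N)))
    rw [← map_sub, add_sub_cancel_right] at this
    linarith
  linarith [hL z hz]

/-- The operator `D` commutes with every operator that commutes with `T`. -/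
def Bic (T D : X →L[ℂ] X) : Prop := ∀ A : X →L[ℂ] X, A * T = T * A → A * D = D * A

structure Asym (T : X →L[ℂ] X) (M : ℝ) (V : ℤ → Y →L[ℂ] Y) (W : X →L[ℂ] Y) : Prop where
  pow : ∀ n : ℕ, ‖T ^ n‖ ≤ M
  grp : Grp V
  int : ∀ x, W (T x) = V 1 (W x)

variable {T : X →L[ℂ] X} {M : ℝ} {V : ℤ → Y →L[ℂ] Y} {W : X →L[ℂ] Y}

omit [CompleteSpace X] [CompleteSpace Y] in
lemma Asym.int_pow (h : Asym T M V W) (n : ℕ) (x : X) : W ((T ^ n) x) = V n (W x) := by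
  induction n with
  | zero => simp [h.grp.zero]
  | succ n ih =>
    rw [pow_succ', mul_apply_eq_comp, h.int, ih, Nat.cast_succ, add_comm, h.grp.add]
    rfl

omit [CompleteSpace Y] in
lemma Asym.lift (h : Asym T M V W) {A : Y →L[ℂ] Y} {r : ℝ} {N : ℕ}
    (hA : Rep V A r (Ici (N : ℤ))) : ∃ D : X →L[ℂ] X, (∀ x, W (D x) = A (W x)) ∧ ‖D‖ ≤ M * r ∧
      Bic T D ∧ ∀ (y : StrongDual ℂ X) (ε : ℝ), (∀ n, N ≤ n → ‖y.comp (T ^ n)‖ ≤ ε) →
        ∀ x, ‖y (D x)‖ ≤ ε * r * ‖x‖ := by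
  obtain ⟨ι, c, n, ρ, h1, h2, h3, h4⟩ := hA
  have hM : 0 ≤ M := (norm_nonneg _).trans (h.pow 0)
  have hb : ∀ i, ‖c i • T ^ (n i).toNat‖ ≤ M * ‖c i‖ := fun i => by
    rw [norm_smul, mul_comm]; exact mul_le_mul_of_nonneg_right (h.pow _) (norm_nonneg _)
  have hs := (Summable.of_norm_bounded (h1.summable.mul_left M) hb).hasSum
  refine ⟨_, fun x => ?_, (hs.norm_le_of_bounded (h1.mul_left M) hb).trans
    (mul_le_mul_of_nonneg_left h2 hM), fun C hC => ?_, fun y ε hy x => ?_⟩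
  · refine (W.hasSum ((ContinuousLinearMap.apply ℂ X x).hasSum hs)).unique ?_
    convert! (ContinuousLinearMap.apply ℂ Y (W x)).hasSum h3 using 2 with i
    simp only [ContinuousLinearMap.apply_apply, map_smul]
    by_cases hc : c i = 0
    · simp [hc]
    · rw [h.int_pow, Int.toNat_of_nonneg ((Int.natCast_nonneg N).trans (h4 i hc))]
  · refine (hs.mul_left C).unique ?_
    convert! hs.mul_right C using 2 with i
    rw [mul_smul_comm, smul_mul_assoc, (Commute.pow_right hC _).eq]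
  · have hε : 0 ≤ ε := (norm_nonneg _).trans (hy N le_rfl)
    refine ((y.hasSum ((ContinuousLinearMap.apply ℂ X x).hasSum hs)).norm_le_of_bounded
      ((h1.mul_left ε).mul_right ‖x‖) fun i => ?_).trans (by gcongr)
    simp only [ContinuousLinearMap.apply_apply, map_smul, norm_smul]
    by_cases hc : c i = 0
    · simp [hc]
    · have h5 : N ≤ (n i).toNat := by have := h4 i hc; simp only [mem_Ici] at this; omega
      have h6 := (y.comp (T ^ (n i).toNat)).le_of_opNorm_le (hy _ h5) x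
      rw [mul_comm ε, mul_assoc]
      exact mul_le_mul_of_nonneg_left h6 (norm_nonneg _)

lemma Asym.high (h : Asym T M V W)
    (h0 : ∀ y : StrongDual ℂ X, Tendsto (fun n => ‖y.comp (T ^ n)‖) atTop (𝓝 0))
    {A : Y →L[ℂ] Y} {r s : ℝ} {d : ℕ} (hA : Rep V A r (Ici (-d : ℤ))) {H : ℕ → Y →L[ℂ] Y}
    (hH : ∀ N : ℕ, Rep V (H N) s (Ici (N : ℤ))) (y : StrongDual ℂ X) {ε : ℝ} (hε : 0 < ε) :
    ∀ᶠ N in atTop, ∃ D : X →L[ℂ] X, (∀ x, W (D x) = (A * H N) (W x)) ∧ ‖D‖ ≤ M * (r * s) ∧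
      Bic T D ∧ ∀ x, ‖y (D x)‖ ≤ ε * ‖x‖ := by
  have hrs : 0 ≤ r * s := mul_nonneg hA.nonneg (hH 0).nonneg
  obtain ⟨n₀, hn₀⟩ := eventually_atTop.1
    ((h0 y).eventually (ge_mem_nhds (show 0 < ε / (r * s + 1) by positivity)))
  filter_upwards [eventually_ge_atTop (n₀ + d)] with N hN
  obtain ⟨D, d1, d2, d3, d4⟩ := h.lift (N := n₀) (hA.mul h.grp (hH N) fun a ha b hb => by
    simp only [mem_Ici] at *; omega)
  refine ⟨D, d1, d2, d3, fun x => (d4 y _ hn₀ x).trans ?_⟩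
  gcongr
  rw [div_mul_eq_mul_div, div_le_iff₀ (by positivity)]
  nlinarith

lemma Asym.high' (h : Asym T M V W)
    (h0 : ∀ y : StrongDual ℂ X, Tendsto (fun n => ‖y.comp (T ^ n)‖) atTop (𝓝 0))
    {A : Y →L[ℂ] Y} {r s : ℝ} (hA : Rep V A r univ) {H : ℕ → Y →L[ℂ] Y}
    (hH : ∀ N : ℕ, Rep V (H N) s (Ici (N : ℤ))) (ψ : StrongDual ℂ Y) (ε : ℝ) (hε : 0 < ε) :
    ∀ᶠ N in atTop, ∀ x, ‖ψ ((A * H N) (W x))‖ ≤ ε * ‖x‖ := by
  have hs := (hH 0).nonneg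
  have hK : 0 < ‖ψ‖ * s * ‖W‖ + 1 := by positivity
  obtain ⟨d, A₁, a1, a2⟩ := hA.trunc h.grp (show 0 < ε / 2 / (‖ψ‖ * s * ‖W‖ + 1) by positivity)
  filter_upwards [h.high h0 a1 hH (ψ.comp W) (half_pos hε)] with N ⟨D, d1, _, _, d4⟩ x
  have e : A * H N = A₁ * H N + (A - A₁) * H N := by noncomm_ring
  have b1 := d4 x
  rw [ContinuousLinearMap.comp_apply, d1] at b1
  have b2 : ‖ψ (((A - A₁) * H N) (W x))‖ ≤ ε / 2 * ‖x‖ := by
    have b3 := (a2.mul h.grp (hH N) (U := univ) fun _ _ _ _ => trivial).norm_le h.grp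
    calc _ ≤ ‖ψ‖ * ((ε / 2 / (‖ψ‖ * s * ‖W‖ + 1) * s) * (‖W‖ * ‖x‖)) :=
          ψ.le_of_opNorm_le_of_le le_rfl
            (ContinuousLinearMap.le_of_opNorm_le_of_le _ b3 (W.le_opNorm x))
      _ = ε / 2 * ((‖ψ‖ * s * ‖W‖) / (‖ψ‖ * s * ‖W‖ + 1)) * ‖x‖ := by field_simp
      _ ≤ _ := by
        gcongr
        exact mul_le_of_le_one_right (by positivity) ((div_le_one hK).2 (by linarith))
  rw [e, add_apply, map_add]
  refine (norm_add_le _ _).trans ?_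
  linarith

structure St (X Y : Type*) [NormedAddCommGroup X] [NormedSpace ℂ X]
    [NormedAddCommGroup Y] [NormedSpace ℂ Y] where
  L : Y →L[ℂ] Y
  p : Y →L[ℂ] Y
  q : Y →L[ℂ] Y
  G : Y →L[ℂ] Y
  D : X →L[ℂ] X

structure Inv (T : X →L[ℂ] X) (V : ℤ → Y →L[ℂ] Y) (W : X →L[ℂ] Y) (x₀ : X) (r m : ℝ)
    (y₀ : StrongDual ℂ X) (δ : ℝ) (P Q : ℕ → ℝ) (k : ℕ) (s : St X Y) : Prop where
  i1 : ∀ x, ‖x - x₀‖ ≤ r → m * (1 / 2 + (1 / 2) ^ (k + 1)) ≤ ‖(s.L + s.p) (W x)‖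
  i2 : ‖s.L‖ ≤ 1 / 10 * (1 - (1 / 2) ^ k)
  i3 : Rep V s.p (P k) univ
  i4 : Rep V s.q (Q k) univ
  i5 : s.p * s.G = s.p * s.q
  i6 : ∀ x, W (s.D x) = s.G (W x)
  i7 : Bic T s.D
  i8 : ∀ x, ‖y₀ (s.D x) - y₀ x‖ ≤ δ * (1 - (1 / 2) ^ k) * ‖x‖

lemma Asym.step (hE : Function.Surjective (NormedSpace.inclusionInDoubleDual ℂ X))
    (h : Asym T M V W)
    (h0 : ∀ y : StrongDual ℂ X, Tendsto (fun n => ‖y.comp (T ^ n)‖) atTop (𝓝 0))
    {x₀ : X} {r m : ℝ} (hm : 0 < m) {y₀ : StrongDual ℂ X} {δ : ℝ} (hδ : 0 < δ)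
    {P Q : ℕ → ℝ} {k : ℕ} {α β C : ℝ}
    (p1 : P k * np (-β) ≤ P (k + 1)) (p2 : P k * np β ≤ 1 / 10 * (1 / 2) ^ (k + 1))
    (p3 : Q k * np α < Q (k + 1)) (p4 : Q k * (np α + np (-α)) ≤ C * (1 / 2) ^ k)
    {s : St X Y} (hs : Inv T V W x₀ r m y₀ δ P Q k s) :
    ∃ s', Inv T V W x₀ r m y₀ δ P Q (k + 1) s' ∧ ‖s'.D - s.D‖ ≤ M * C * (1 / 2) ^ k := by
  have hM : 0 ≤ M := (norm_nonneg _).trans (h.pow 0)
  have hV := h.grp
  obtain ⟨d, w, w1, w2⟩ := hs.i4.trunc hV (sub_pos.2 p3)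
  have hk : (0 : ℝ) < (1 / 2) ^ (k + 1 + 1) := by positivity
  have hk2 : (1 / 2 : ℝ) ^ (k + 1) = 2 * (1 / 2) ^ (k + 1 + 1) := by ring
  have e1 := weak_lsc hE (x₀ := x₀) (r := r) (c' := m * (1 / 2 + (1 / 2) ^ (k + 1 + 1)))
    (c := m * (1 / 2 + (1 / 2) ^ (k + 1))) (by rw [hk2]; nlinarith) ((s.L + s.p).comp W)
    (fun N x => (s.p * (ev V N (cp (-β)) + ev V N (cm (-β)) - 1)) (W x)) hs.i1
    (h.high' h0 hs.i3 fun N => ev_hf hV N (-β))
  have e2 := h.high h0 w1 (fun N => ev_hf hV N α) y₀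
    (show 0 < δ * (1 / 2) ^ (k + 1) by positivity)
  obtain ⟨N, e1, D, d1, d2, d3, d4⟩ := (e1.and e2).exists
  have rg := ev_rep hV N (cp_summable (-β))
  have rg' := ev_rep hV N (cm_summable (-β))
  have rs := ev_rep hV N (cp_summable α)
  have z := ev_zero_div hV N (-β) α
  rw [tsum_cm, neg_neg] at rg'
  rw [tsum_cm] at d2
  generalize ev V N (cp (-β)) = g at *
  generalize ev V N (cm (-β)) = g' at *
  generalize ev V N (cp α) = u at *
  generalize ev V N (cm α) = u' at *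
  have tr : ∀ a ∈ (univ : Set ℤ), ∀ b ∈ (univ : Set ℤ), a + b ∈ (univ : Set ℤ) :=
    fun _ _ _ _ => trivial
  refine ⟨⟨s.L + s.p * g', s.p * g, w * u + (s.q - w), s.G + w * (u + u' - 1), s.D + D⟩,
    ⟨fun x hx => ?_, ?_, (hs.i3.mul hV rg tr).mono p1 le_rfl, ?_, ?_, fun x => ?_,
      fun A hA => ?_, ?_⟩, ?_⟩
  · have : s.L + s.p * g' + s.p * g = s.L + s.p + s.p * (g + g' - 1) := by noncomm_ring
    simp only [this]
    exact e1 x hx
  · refine (norm_add_le _ _).trans ?_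
    have := (hs.i3.mul hV rg' tr).norm_le hV
    have := hs.i2
    rw [pow_succ] at p2 ⊢
    linarith
  · refine (((w1.mono le_rfl (subset_univ _)).mul hV rs tr).add w2).mono ?_ le_rfl
    simp only [np]; linarith
  · have c1 := hs.i3.comm hV rg
    have c2 := rg.comm hV w1
    have a1 : s.p * g * s.G = s.p * g * s.q := by rw [c1, mul_assoc, hs.i5, mul_assoc]
    have a2 : s.p * g * (w * u') = 0 := by
      rw [mul_assoc, ← mul_assoc g, c2, mul_assoc, z, mul_zero, mul_zero]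
    simp only [mul_add, mul_sub, mul_one, a1, a2]
    abel
  · simp only [add_apply, map_add, hs.i6, d1]
  · simp only [mul_add, add_mul, hs.i7 A hA, d3 A hA]
  · intro x
    have a1 := hs.i8 x
    have a2 := d4 x
    have a3 := norm_add_le (y₀ (s.D x) - y₀ x) (y₀ (D x))
    simp only [add_apply, map_add]
    rw [add_sub_right_comm]
    rw [pow_succ] at a2 ⊢
    linarith
  · simp only [add_sub_cancel_left]
    rw [mul_assoc]
    exact d2.trans (mul_le_mul_of_nonneg_left p4 hM)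

theorem Asym.core' (hE : Function.Surjective (NormedSpace.inclusionInDoubleDual ℂ X))
    (h : Asym T M V W)
    (h0 : ∀ y : StrongDual ℂ X, Tendsto (fun n => ‖y.comp (T ^ n)‖) atTop (𝓝 0))
    {x₀ : X} (hx₀ : W x₀ ≠ 0) (y₀ : StrongDual ℂ X) {δ : ℝ} (hδ : 0 < δ) :
    ∃ φ : X →L[ℂ] X, Bic T φ ∧ (∀ x, ‖y₀ (φ x) - y₀ x‖ ≤ δ * ‖x‖) ∧
      ∀ x, ‖W x₀‖ / 2 / ‖W‖ ≤ ‖φ x - x₀‖ := by
  obtain ⟨α, β, P, Q, C, hP, hQ, hp⟩ := params
  have hW0 : 0 < ‖W x₀‖ := norm_pos_iff.2 hx₀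
  have hW : 0 < ‖W‖ := norm_pos_iff.2 fun h => hx₀ (by simp [h])
  obtain ⟨m, hm⟩ : ∃ m, ‖W x₀‖ = 2 * m := ⟨‖W x₀‖ / 2, by ring⟩
  have hm0 : 0 < m := by linarith
  have hB : ∀ x, ‖x - x₀‖ ≤ m / ‖W‖ → m ≤ ‖W x‖ ∧ ‖W x‖ ≤ 3 * m := fun x hx => by
    have h1 : ‖W x - W x₀‖ ≤ m := by
      rw [← map_sub]
      refine (W.le_opNorm_of_le hx).trans_eq ?_
      field_simp
    have h2 := (abs_norm_sub_norm_le (W x) (W x₀)).trans h1
    rw [abs_le] at h2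
    constructor <;> linarith [h2.1, h2.2]
  let I := Inv T V W x₀ (m / ‖W‖) m y₀ δ P Q
  have start : I 0 ⟨0, 1, 1, 1, 1⟩ := ⟨fun x hx => by norm_num; exact (hB x hx).1, by simp,
    hP ▸ Rep.one h.grp, hQ ▸ Rep.one h.grp, rfl, fun _ => rfl, fun _ _ => by simp, by simp⟩
  have step : ∀ k (s : {s // I k s}), ∃ s' : {s // I (k + 1) s},
      ‖s'.1.D - s.1.D‖ ≤ M * C * (1 / 2) ^ k := fun k s => by
    obtain ⟨s', a, b⟩ := h.step hE h0 hm0 hδ (hp k).1 (hp k).2.1 (hp k).2.2.1 (hp k).2.2.2.1 s.2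
    exact ⟨⟨s', a⟩, b⟩
  choose f hf using step
  let s : ∀ k, {s // I k s} := fun k => Nat.rec ⟨_, start⟩ f k
  have hc : CauchySeq fun k => (s k).1.D :=
    cauchySeq_of_le_geometric (1 / 2) (M * C) (by norm_num) fun k => by
      rw [dist_comm, dist_eq_norm]; exact hf k (s k)
  obtain ⟨φ, hφ⟩ := cauchySeq_tendsto_of_complete hc
  have hφx : ∀ x, Tendsto (fun k => (s k).1.D x) atTop (𝓝 (φ x)) := fun x =>
    ((ContinuousLinearMap.apply ℂ X x).continuous.tendsto φ).comp hφ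
  refine ⟨φ, fun A hA => tendsto_nhds_unique (hφ.const_mul A) ?_, fun x => ?_, fun x => ?_⟩
  · simpa only [fun k => (s k).2.i7 A hA] using hφ.mul_const A
  · have h1 := (((y₀.continuous.tendsto _).comp (hφx x)).sub_const (y₀ x)).norm
    refine le_of_tendsto' h1 fun k => ((s k).2.i8 x).trans ?_
    have : (0 : ℝ) ≤ δ * (1 / 2) ^ k * ‖x‖ := by positivity
    linarith
  · rw [hm, mul_div_cancel_left₀ m two_ne_zero]
    by_contra hx
    have e1 : ∀ᶠ k in atTop, ‖(s k).1.D x - x₀‖ ≤ m / ‖W‖ :=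
      ((hφx x).sub_const x₀).norm.eventually (ge_mem_nhds (not_le.1 hx))
    have e2 : ∀ᶠ k in atTop, (1 / 2 : ℝ) ^ k * ‖W x‖ ≤ m / 10 := by
      have := (tendsto_pow_atTop_nhds_zero_of_lt_one (r := (1 / 2 : ℝ)) (by norm_num)
        (by norm_num)).mul_const ‖W x‖
      rw [zero_mul] at this
      exact this.eventually (ge_mem_nhds (by positivity))
    obtain ⟨k, e1, e2⟩ := (e1.and e2).exists
    obtain ⟨i1, i2, i3, i4, i5, i6, -, -⟩ := (s k).2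
    have a1 := i1 _ e1
    have a2 : ‖(s k).1.L (W ((s k).1.D x))‖ ≤ 1 / 10 * (3 * m) :=
      ContinuousLinearMap.le_of_opNorm_le_of_le _ (i2.trans (by
        have : (0 : ℝ) ≤ (1 / 2) ^ k := by positivity
        linarith)) (hB _ e1).2
    have a3 : ‖(s k).1.p (W ((s k).1.D x))‖ ≤ (1 / 2) ^ k * ‖W x‖ := by
      rw [i6, ← mul_apply_eq_comp, i5]
      exact ContinuousLinearMap.le_of_opNorm_le _ (((i3.mul h.grp i4 (U := univ)
        fun _ _ _ _ => trivial).norm_le h.grp).trans (hp k).2.2.2.2) _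
    have a4 := norm_add_le ((s k).1.L (W ((s k).1.D x))) ((s k).1.p (W ((s k).1.D x)))
    rw [add_apply] at a1
    have : 0 ≤ m * (1 / 2) ^ (k + 1) := by positivity
    linarith

theorem Asym.core (hE : Function.Surjective (NormedSpace.inclusionInDoubleDual ℂ X))
    (h : Asym T M V W)
    (h0 : ∀ y : StrongDual ℂ X, Tendsto (fun n => ‖y.comp (T ^ n)‖) atTop (𝓝 0))
    {x₀ : X} (hx₀ : W x₀ ≠ 0) : ∃ φ : X →L[ℂ] X, Bic T φ ∧ φ x₀ ≠ 0 ∧ ¬DenseRange φ := by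
  have hW0 : 0 < ‖W x₀‖ := norm_pos_iff.2 hx₀
  have hW : 0 < ‖W‖ := norm_pos_iff.2 fun h => hx₀ (by simp [h])
  have hx : 0 < ‖x₀‖ := norm_pos_iff.2 fun h => hx₀ (by simp [h])
  obtain ⟨g, -, g2⟩ := exists_dual_vector'' ℂ x₀
  obtain ⟨φ, a, b, c⟩ := h.core' hE h0 hx₀ g (show (0 : ℝ) < 1 / 2 by norm_num)
  refine ⟨φ, a, fun hz => ?_, fun hd => ?_⟩
  · have := b x₀
    rw [hz, map_zero, g2] at this
    simp only [Complex.coe_algebraMap, zero_sub, norm_neg, Complex.norm_real, norm_norm] at this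
    linarith
  · obtain ⟨x, hx⟩ := Metric.denseRange_iff.1 hd x₀ (‖W x₀‖ / 2 / ‖W‖) (by positivity)
    rw [dist_comm, dist_eq_norm] at hx
    exact absurd (c x) (not_le.2 hx)

end Pool.Agent.P.MP_f981b0_an.PB
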