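import Mathlib

/-!
One variable: the functions `F β z = (1 - z^2)^3 ((1+z)/(1-z))^(iβ)` on the closed unit disc and
the Fourier coefficients of their restrictions to the upper half circle.
-/

set_option autoImplicit false

noncomputable section

namespace Pool.Agent.P.MP_f981b0_an.PB

open Complex Metric Set Filter Topology MeasureTheory
open scoped Real

def ee (β : ℝ) (z : ℂ) : ℂ := exp (I * β * (log (1 + z) - log (1 - z)))

def FF (β : ℝ) (z : ℂ) : ℂ := (1 - z ^ 2) ^ 3 * ee β z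

lemma norm_ee (β : ℝ) (z : ℂ) :
    ‖ee β z‖ = Real.exp (-(β * (arg (1 + z) - arg (1 - z)))) := by
  simp [ee, norm_exp, log_im, mul_assoc]

lemma ee_bound (β : ℝ) (z : ℂ) : ‖ee β z‖ ≤ Real.exp (|β| * (2 * π)) := by
  rw [norm_ee]
  refine Real.exp_le_exp.2 ((neg_le_abs _).trans ?_)
  rw [abs_mul]
  refine mul_le_mul_of_nonneg_left ((abs_sub _ _).trans ?_) (abs_nonneg _)
  linarith [abs_arg_le_pi (1 + z), abs_arg_le_pi (1 - z)]

lemma slit_add {z : ℂ} (hz : ‖z‖ ≤ 1) (h : 1 + z ≠ 0) : 0 < (1 + z).re := by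
  have h1 : z.re ^ 2 + z.im ^ 2 ≤ 1 := by
    have := Complex.sq_norm z
    rw [normSq_apply] at this
    nlinarith [norm_nonneg z]
  by_contra hc
  simp only [add_re, one_re, not_lt] at hc
  have h2 : z.re = -1 := by nlinarith
  have h3 : z.im = 0 := by nlinarith
  exact h (Complex.ext (by simp [h2]) (by simp [h3]))

lemma slit_both {z : ℂ} (hz : ‖z‖ ≤ 1) (h : 1 - z ^ 2 ≠ 0) :
    0 < (1 + z).re ∧ 0 < (1 - z).re := by
  have e : 1 - z ^ 2 = (1 + z) * (1 - z) := by ring
  rw [e] at h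
  refine ⟨slit_add hz (left_ne_zero_of_mul h), ?_⟩
  have := slit_add (z := -z) (by simpa using hz)
    (by simpa [sub_eq_add_neg] using right_ne_zero_of_mul h)
  simpa [sub_eq_add_neg] using this

lemma hasDerivAt_ee (β : ℝ) {z : ℂ} (hz : ‖z‖ ≤ 1) (h : 1 - z ^ 2 ≠ 0) :
    HasDerivAt (ee β) (2 * I * β / (1 - z ^ 2) * ee β z) z := by
  obtain ⟨h1, h2⟩ := slit_both hz h
  have e : 1 - z ^ 2 = (1 + z) * (1 - z) := by ring
  have h1' : 1 + z ≠ 0 := left_ne_zero_of_mul (e ▸ h)
  have h2' : 1 - z ≠ 0 := right_ne_zero_of_mul (e ▸ h)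
  have d1 : HasDerivAt (fun z : ℂ => log (1 + z)) (1 / (1 + z)) z :=
    ((hasDerivAt_id z).const_add 1).clog (Or.inl h1)
  have d2 : HasDerivAt (fun z : ℂ => log (1 - z)) (-1 / (1 - z)) z :=
    ((hasDerivAt_id z).const_sub 1).clog (Or.inl h2)
  have := ((d1.sub d2).const_mul (I * β)).cexp
  refine HasDerivAt.congr_deriv this ?_
  rw [e]; unfold ee; simp only [Pi.sub_apply]; field_simp; ring

lemma contOn_ee (β : ℝ) (P : ℂ → ℂ) (hP : Continuous P) :
    ContinuousOn (fun z => (1 - z ^ 2) * P z * ee β z) (closedBall 0 1) := by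
  intro z hz
  have hz' : ‖z‖ ≤ 1 := by simpa using hz
  have hc : Continuous fun z : ℂ => (1 - z ^ 2) * P z := by fun_prop
  by_cases h : 1 - z ^ 2 = 0
  · refine ContinuousAt.continuousWithinAt ?_
    unfold ContinuousAt
    simp only [h, zero_mul]
    refine squeeze_zero_norm (a := fun w => ‖(1 - w ^ 2) * P w‖ * Real.exp (|β| * (2 * π)))
      (fun w => ?_) ?_
    · rw [norm_mul]; exact mul_le_mul_of_nonneg_left (ee_bound β w) (norm_nonneg _)
    · have := (hc.norm.tendsto z).mul_const (Real.exp (|β| * (2 * π)))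
      simpa [h] using this
  · exact (hc.continuousAt.mul (hasDerivAt_ee β hz' h).continuousAt).continuousWithinAt

lemma arg_diff {t : ℝ} (ht : t ∈ Ioo 0 π) :
    1 - exp (t * I) ^ 2 ≠ 0 ∧ arg (1 + exp (t * I)) - arg (1 - exp (t * I)) = π / 2 := by
  set z := exp (t * I) with hz
  have hs : 0 < Real.sin t := Real.sin_pos_of_mem_Ioo ht
  have hre : z.re = Real.cos t := exp_ofReal_mul_I_re t
  have him : z.im = Real.sin t := exp_ofReal_mul_I_im t
  have hn : ‖z‖ = 1 := norm_exp_ofReal_mul_I t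
  have h1 : 1 + z ≠ 0 := fun h => by
    have := congrArg im h; simp [him] at this; linarith
  have h2 : 1 - z ≠ 0 := fun h => by
    have := congrArg im h; simp [him] at this; linarith
  have h0 : 1 - z ^ 2 ≠ 0 := by
    rw [show 1 - z ^ 2 = (1 + z) * (1 - z) by ring]; exact mul_ne_zero h1 h2
  refine ⟨h0, ?_⟩
  obtain ⟨-, p2⟩ := slit_both hn.le h0
  have hq : 0 < normSq (1 - z) := normSq_pos.2 h2
  have key : 1 + z = ((2 * Real.sin t / normSq (1 - z) : ℝ) : ℂ) * (I * (1 - z)) := by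
    have hq' : ((normSq (1 - z) : ℝ) : ℂ) ≠ 0 := by exact_mod_cast hq.ne'
    push_cast
    rw [div_mul_eq_mul_div, eq_div_iff hq', normSq_eq_conj_mul_self]
    have : (1 + z) * (starRingEnd ℂ) (1 - z) = 2 * Complex.sin t * I := by
      rw [← ofReal_sin]
      apply Complex.ext
      · simp [hre, him, -ofReal_sin]; nlinarith [Real.sin_sq_add_cos_sq t]
      · simp [hre, him, -ofReal_sin]; ring
    linear_combination (1 - z) * this
  have ha : |arg (1 - z)| < π / 2 := abs_arg_lt_pi_div_two_iff.2 (Or.inl p2)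
  rw [abs_lt] at ha
  rw [key, arg_real_mul _ (by positivity), arg_mul I_ne_zero h2, arg_I]
  · ring
  · rw [arg_I]; constructor <;> linarith [Real.pi_pos]

lemma norm_ee_arc (β : ℝ) {t : ℝ} (ht : t ∈ Ioo 0 π) :
    ‖ee β (exp (t * I))‖ = Real.exp (-(β * (π / 2))) := by
  rw [norm_ee, (arg_diff ht).2]

lemma cont_arc (β : ℝ) (P : ℂ → ℂ) (hP : Continuous P) :
    Continuous fun t : ℝ => (1 - exp (t * I) ^ 2) * P (exp (t * I)) * ee β (exp (t * I)) :=
  (contOn_ee β P hP).comp_continuous (f := fun t : ℝ => exp (t * I)) (by fun_prop)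
    fun t => by simp [norm_exp_ofReal_mul_I]

lemma deriv_arc {H : ℂ → ℂ} {H' : ℂ} {t : ℝ} (h : HasDerivAt H H' (exp (t * I))) :
    HasDerivAt (fun s : ℝ => H (exp (s * I))) (H' * (exp (t * I) * I)) t := by
  have h1 : HasDerivAt (fun w : ℂ => exp (w * I)) (exp (t * I) * I) (t : ℂ) := by
    simpa using ((hasDerivAt_id (t : ℂ)).mul_const I).cexp
  exact (h.comp (t : ℂ) h1).comp_ofReal

/-- Integration by parts against a character, without boundary terms. -/
lemma ibp {f f' : ℝ → ℂ} (hf : Continuous f) (hf' : Continuous f')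
    (hd : ∀ t ∈ Ioo (0 : ℝ) π, HasDerivAt f (f' t) t) (h0 : f 0 = 0) (h1 : f π = 0) (n : ℤ) :
    ∫ t in (0 : ℝ)..π, f' t * exp (-(n * t * I)) =
      n * I * ∫ t in (0 : ℝ)..π, f t * exp (-(n * t * I)) := by
  have hv : ∀ t : ℝ, HasDerivAt (fun s : ℝ => exp (-(n * s * I)))
      (exp (-(n * t * I)) * -(n * I)) t := fun t => by
    have h1 : HasDerivAt (fun w : ℂ => exp (-(n * w * I))) (exp (-(n * t * I)) * -(n * I))
        (t : ℂ) := by
      simpa using (((hasDerivAt_id (t : ℂ)).const_mul (n : ℂ)).mul_const I).neg.cexp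
    exact h1.comp_ofReal
  have := intervalIntegral.integral_mul_deriv_eq_deriv_mul_of_hasDerivAt (a := 0) (b := π)
    (u := f) (u' := f') (v := fun s : ℝ => exp (-(n * s * I)))
    (v' := fun t : ℝ => exp (-(n * t * I)) * -(n * I)) hf.continuousOn (by fun_prop)
    (fun t ht => hd t (by simpa [min_eq_left Real.pi_pos.le, max_eq_right Real.pi_pos.le] using ht))
    (fun t _ => hv t) (hf'.intervalIntegrable _ _) (Continuous.intervalIntegrable (by fun_prop) _ _)
  simp only [h0, h1, zero_mul, sub_self, zero_sub] at this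
  rw [← neg_inj, ← this, ← intervalIntegral.integral_const_mul, ← intervalIntegral.integral_neg]
  congr 1; ext t; ring

/-- The values of `F β` on the unit circle. -/
def ff (β : ℝ) (t : ℝ) : ℂ := FF β (exp (t * I))

/-- Fourier coefficients of the restriction of `F β` to the upper half circle. -/
def cp (β : ℝ) (n : ℤ) : ℂ := ((2 * π)⁻¹ : ℝ) * ∫ t in (0 : ℝ)..π, ff β t * exp (-(n * t * I))

lemma ff_cont (β : ℝ) : Continuous (ff β) := by
  refine (cont_arc β (fun z => (1 - z ^ 2) ^ 2) (by fun_prop)).congr fun t => ?_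
  simp only [ff, FF]; ring

lemma exp_pi_sq : exp ((π : ℝ) * I) ^ 2 = 1 := by rw [exp_pi_mul_I]; norm_num

lemma ff_zero (β : ℝ) : ff β 0 = 0 := by simp [ff, FF]

lemma ff_pi (β : ℝ) : ff β π = 0 := by simp [ff, FF]

lemma norm_int_le {f : ℝ → ℂ} {C : ℝ} (h : ∀ t ∈ Ioo (0 : ℝ) π, ‖f t‖ ≤ C) (n : ℤ) :
    ‖∫ t in (0 : ℝ)..π, f t * exp (-(n * t * I))‖ ≤ C * π := by
  have := intervalIntegral.norm_integral_le_of_norm_le_const_ae (a := 0) (b := π) (C := C)
    (f := fun t => f t * exp (-(n * t * I))) (by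
      filter_upwards [compl_mem_ae_iff.2 (measure_singleton (μ := volume) π)] with t ht h2
      rw [uIoc_of_le Real.pi_pos.le] at h2
      have e : ‖exp (-(n * t * I))‖ = 1 := by
        rw [show -((n : ℂ) * t * I) = ((-(n * t) : ℝ) : ℂ) * I by push_cast; ring]
        exact norm_exp_ofReal_mul_I _
      rw [norm_mul, e, mul_one]
      exact h t ⟨h2.1, lt_of_le_of_ne h2.2 ht⟩)
  simpa [abs_of_pos Real.pi_pos] using this

lemma cp_zero_le (β : ℝ) : ‖cp β 0‖ ≤ 4 * Real.exp (-(β * (π / 2))) := by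
  have h := norm_int_le (f := ff β) (C := 8 * Real.exp (-(β * (π / 2)))) (fun t ht => by
    rw [ff, FF, norm_mul, norm_ee_arc β ht, norm_pow]
    have : ‖1 - exp (t * I) ^ 2‖ ≤ 2 := (norm_sub_le _ _).trans (by
      rw [norm_pow, norm_exp_ofReal_mul_I]; norm_num)
    gcongr
    calc _ ≤ (2 : ℝ) ^ 3 := by gcongr
      _ = 8 := by norm_num) 0
  rw [cp, norm_mul, norm_real, Real.norm_of_nonneg (by positivity),
    inv_mul_le_iff₀ (by positivity)]
  linarith

lemma cp_le (β : ℝ) (n : ℤ) :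
    (n : ℝ) ^ 2 * ‖cp β n‖ ≤ 72 * (1 + |β|) ^ 2 * Real.exp (-(β * (π / 2))) := by
  let k : ℂ → ℂ := fun z => -6 * I * z ^ 2 - 2 * β * z
  let k' : ℂ → ℂ := fun z => -12 * I * z - 2 * β
  let P2 : ℂ → ℂ := fun z => z * I * (-4 * z * k z + (1 - z ^ 2) * k' z + 2 * I * β * k z)
  let f1 : ℝ → ℂ := fun t =>
    (1 - exp (t * I) ^ 2) * ((1 - exp (t * I) ^ 2) * k (exp (t * I))) * ee β (exp (t * I))
  let f2 : ℝ → ℂ := fun t => (1 - exp (t * I) ^ 2) * P2 (exp (t * I)) * ee β (exp (t * I))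
  have c1 : Continuous f1 := cont_arc β (fun z => (1 - z ^ 2) * k z) (by fun_prop)
  have c2 : Continuous f2 := cont_arc β P2 (by fun_prop)
  have hq : ∀ z : ℂ, HasDerivAt (fun z : ℂ => 1 - z ^ 2) (-(2 * z)) z := fun z => by
    simpa using (hasDerivAt_pow 2 z).const_sub 1
  have d0 : ∀ t ∈ Ioo (0 : ℝ) π, HasDerivAt (ff β) (f1 t) t := fun t ht => by
    have h0 := (arg_diff ht).1
    have := deriv_arc (((hq _).pow 3).mul (hasDerivAt_ee β (norm_exp_ofReal_mul_I t).le h0))
    refine HasDerivAt.congr_deriv this ?_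
    simp only [f1, k, Pi.pow_apply]
    field_simp
    linear_combination (ee β (exp (t * I)) * 2 * β * (1 - exp (t * I) ^ 2) ^ 2) * I_mul_I
  have d1 : ∀ t ∈ Ioo (0 : ℝ) π, HasDerivAt f1 (f2 t) t := fun t ht => by
    have h0 := (arg_diff ht).1
    have hk : ∀ z : ℂ, HasDerivAt k (k' z) z := fun z => by
      refine HasDerivAt.congr_deriv (((hasDerivAt_pow 2 z).const_mul (-6 * I)).sub
        ((hasDerivAt_id z).const_mul (2 * β : ℂ))) ?_
      simp only [k']; push_cast; ring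
    have := deriv_arc (((hq _).mul ((hq _).mul (hk _))).mul
      (hasDerivAt_ee β (norm_exp_ofReal_mul_I t).le h0))
    refine HasDerivAt.congr_deriv this ?_
    simp only [f2, P2, Pi.mul_apply]
    field_simp
    ring
  have i1 := ibp (ff_cont β) c1 d0 (ff_zero β) (ff_pi β) n
  have i2 := ibp c1 c2 d1 (by simp [f1]) (by simp [f1]) n
  have hb := norm_int_le (f := f2) (C := 144 * (1 + |β|) ^ 2 * Real.exp (-(β * (π / 2))))
    (fun t ht => by
      simp only [f2]
      rw [norm_mul, norm_mul, norm_ee_arc β ht]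
      set z := exp (t * I)
      have hz : ‖z‖ = 1 := norm_exp_ofReal_mul_I t
      have hb := abs_nonneg β
      have a1 : ‖1 - z ^ 2‖ ≤ 2 := (norm_sub_le _ _).trans (by rw [norm_pow, hz]; norm_num)
      have a2 : ‖k z‖ ≤ 6 + 2 * |β| := (norm_sub_le _ _).trans (by simp [hz])
      have a3 : ‖k' z‖ ≤ 12 + 2 * |β| := (norm_sub_le _ _).trans (by simp [hz])
      have a4 : ‖P2 z‖ ≤ 4 * (6 + 2 * |β|) + 2 * (12 + 2 * |β|) + 2 * |β| * (6 + 2 * |β|) := by
        simp only [P2]
        rw [norm_mul, norm_mul, hz, norm_I, one_mul, one_mul]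
        refine norm_add₃_le.trans ?_
        simp only [norm_mul, norm_neg, hz, norm_I, norm_real, Real.norm_eq_abs, Complex.norm_ofNat,
          mul_one]
        gcongr
      refine mul_le_mul_of_nonneg_right ?_ (Real.exp_pos _).le
      calc _ ≤ 2 * (4 * (6 + 2 * |β|) + 2 * (12 + 2 * |β|) + 2 * |β| * (6 + 2 * |β|)) := by gcongr
        _ ≤ _ := by nlinarith) n
  rw [i2, i1, norm_mul, norm_mul (_ * I), norm_mul, norm_I, norm_intCast, mul_one, ← mul_assoc,
    abs_mul_abs_self] at hb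
  rw [cp, norm_mul, norm_real, Real.norm_of_nonneg (by positivity), mul_left_comm,
    inv_mul_le_iff₀ (by positivity)]
  nlinarith

end Pool.Agent.P.MP_f981b0_an.PB
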