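import Pool.Agent.P.MP_f981b0_an.PB.One

/-!
The two halves `cp β`, `cm β` of the coefficient sequence of `F β`: absolute summability with
sharp exponential rates, analyticity of the sum, and vanishing of the convolution.
-/

set_option autoImplicit false

noncomputable section

namespace Pool.Agent.P.MP_f981b0_an.PB

open Complex Metric Set Filter Topology MeasureTheory
open scoped Real

lemma exists_kappa : ∃ κ : ℝ, 1 ≤ κ ∧ ∀ β : ℝ, Summable (fun n => ‖cp β n‖) ∧
    ∑' n, ‖cp β n‖ ≤ κ * (1 + |β|) ^ 2 * Real.exp (-(β * (π / 2))) := by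
  let ρ : ℤ → ℝ := fun n => 1 / (n : ℝ) ^ 2 + if n = 0 then 1 else 0
  have hρ : Summable ρ := (Real.summable_one_div_int_pow.2 one_lt_two).add
    (hasSum_ite_eq (0 : ℤ) (1 : ℝ)).summable
  have h0 : 0 ≤ ∑' n, ρ n := tsum_nonneg fun n => by
    simp only [ρ]; split_ifs <;> positivity
  refine ⟨72 * ∑' n, ρ n + 1, by linarith, fun β => ?_⟩
  set C := 72 * (1 + |β|) ^ 2 * Real.exp (-(β * (π / 2))) with hC
  have hb : ∀ n, ‖cp β n‖ ≤ C * ρ n := fun n => by
    by_cases hn : n = 0
    · subst hn
      have h1 : (1 : ℝ) ≤ (1 + |β|) ^ 2 := one_le_pow₀ (by linarith [abs_nonneg β])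
      have h2 := Real.exp_pos (-(β * (π / 2)))
      refine (cp_zero_le β).trans ?_
      simp only [ρ, hC]; norm_num; nlinarith
    · have h1 : (0 : ℝ) < (n : ℝ) ^ 2 := by positivity
      simp only [ρ, hn, if_false, add_zero, mul_one_div]
      rw [le_div_iff₀ h1, mul_comm]
      exact cp_le β n
  have hs := Summable.of_nonneg_of_le (fun _ => norm_nonneg _) hb (hρ.mul_left C)
  refine ⟨hs, (hs.tsum_le_tsum hb (hρ.mul_left C)).trans ?_⟩
  rw [tsum_mul_left, hC]
  have : 0 ≤ (1 + |β|) ^ 2 * Real.exp (-(β * (π / 2))) := by positivity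
  nlinarith

lemma cp_summable (β : ℝ) : Summable fun n => ‖cp β n‖ :=
  (exists_kappa.choose_spec.2 β).1

/-- Fourier coefficients of the restriction of `F β` to the lower half circle. -/
def cm (β : ℝ) (n : ℤ) : ℂ := exp (n * π * I) * cp (-β) n

lemma norm_exp_int (n : ℤ) (t : ℝ) : ‖exp (n * t * I)‖ = 1 := by
  rw [show (n : ℂ) * t * I = ((n * t : ℝ) : ℂ) * I by push_cast; ring]
  exact norm_exp_ofReal_mul_I _

lemma norm_cm (β : ℝ) (n : ℤ) : ‖cm β n‖ = ‖cp (-β) n‖ := by
  rw [cm, norm_mul, norm_exp_int, one_mul]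

lemma cm_summable (β : ℝ) : Summable fun n => ‖cm β n‖ := by
  simpa only [norm_cm] using cp_summable (-β)

lemma ff_add_pi (β t : ℝ) : ff β (t + π) = ff (-β) t := by
  have : exp (((t + π : ℝ) : ℂ) * I) = -exp (t * I) := by
    push_cast; rw [add_mul, exp_add, exp_pi_mul_I]; ring
  simp only [ff, FF, ee, this]
  congr 1
  · ring
  · congr 1; push_cast; simp only [sub_neg_eq_add, ← sub_eq_add_neg]; ring

lemma cp_add_cm (β : ℝ) (n : ℤ) : cp β n + cm β n =
    ((2 * π)⁻¹ : ℝ) * ∫ t in (0 : ℝ)..2 * π, ff β t * exp (-(n * t * I)) := by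
  have hc : Continuous fun t : ℝ => ff β t * exp (-(n * t * I)) :=
    (ff_cont β).mul (by fun_prop)
  rw [← intervalIntegral.integral_add_adjacent_intervals (b := π) (hc.intervalIntegrable _ _)
    (hc.intervalIntegrable _ _), mul_add, cm, cp, cp, mul_left_comm]
  congr 2
  have := intervalIntegral.integral_comp_add_right (a := 0) (b := π)
    (fun t : ℝ => ff β t * exp (-(n * t * I))) π
  rw [zero_add, ← two_mul] at this
  rw [← this, ← intervalIntegral.integral_const_mul]
  congr 1; ext t
  rw [ff_add_pi, mul_left_comm, ← exp_add]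
  congr 1
  rw [exp_eq_exp_iff_exists_int]
  exact ⟨n, by push_cast; ring⟩

lemma cp_add_cm_neg (β : ℝ) (m : ℕ) : cp β (-m) + cm β (-m) = 0 ^ m := by
  have h := circleAverage_of_differentiable_on_off_countable (f := fun z => z ^ m * FF β z)
    (c := 0) (R := 1) countable_empty (by
      rw [abs_one]
      refine (contOn_ee β (fun z => z ^ m * (1 - z ^ 2) ^ 2) (by fun_prop)).congr fun z _ => ?_
      simp only [FF]; ring) (by
      intro z hz
      have hz' : ‖z‖ < 1 := by simpa using hz
      have h0 : 1 - z ^ 2 ≠ 0 := fun h => by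
        have : ‖z‖ ^ 2 = 1 := by rw [← norm_pow, ← sub_eq_zero.1 h, norm_one]
        nlinarith [norm_nonneg z]
      have := (hasDerivAt_ee β hz'.le h0).differentiableAt
      unfold FF
      fun_prop)
  rw [cp_add_cm]
  have h0 : FF β 0 = 1 := by simp [FF, ee]
  rw [Real.circleAverage_def, h0, mul_one, real_smul] at h
  rw [← h]
  congr 2; ext t
  simp only [ff, circleMap, zero_add, ofReal_one, one_mul, ← exp_nat_mul]
  rw [mul_comm]; congr 2; push_cast; ring

lemma orth (k : ℤ) : ((2 * π)⁻¹ : ℝ) * ∫ t in (0 : ℝ)..2 * π, exp (k * t * I) =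
    if k = 0 then 1 else 0 := by
  have hπ : (π : ℂ) ≠ 0 := by exact_mod_cast Real.pi_ne_zero
  split_ifs with h
  · subst h; simp; field_simp
  · have hk : (k : ℂ) * I ≠ 0 := mul_ne_zero (by exact_mod_cast h) I_ne_zero
    have := integral_exp_mul_complex (a := 0) (b := 2 * π) hk
    simp only [mul_right_comm (k : ℂ) I] at this
    rw [this]
    have e : exp (k * ((2 * π : ℝ) : ℂ) * I) = 1 := by
      rw [← exp_int_mul_two_pi_mul_I k]; congr 1; push_cast; ring
    rw [e]; simp

lemma cp_add_cm_zero (n : ℤ) : cp 0 n + cm 0 n = (if n = 0 then 1 else 0) -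
    3 * (if n = 2 then 1 else 0) + 3 * (if n = 4 then 1 else 0) - (if n = 6 then 1 else 0) := by
  have hi : ∀ k : ℤ, IntervalIntegrable (fun t : ℝ => exp (k * t * I)) volume 0 (2 * π) :=
    fun k => Continuous.intervalIntegrable (by fun_prop) _ _
  have e : ∀ t : ℝ, ff 0 t * exp (-(n * t * I)) = exp ((0 - n : ℤ) * t * I) -
      3 * exp ((2 - n : ℤ) * t * I) + 3 * exp ((4 - n : ℤ) * t * I) -
      exp ((6 - n : ℤ) * t * I) := fun t => by
    have : ∀ j : ℕ, exp (((j : ℤ) - n : ℤ) * t * I) = exp (t * I) ^ j * exp (-(n * t * I)) :=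
      fun j => by rw [← exp_nat_mul, ← exp_add]; congr 1; push_cast; ring
    have h0 := this 0; have h2 := this 2; have h4 := this 4; have h6 := this 6
    simp only [Nat.cast_ofNat, Nat.cast_zero] at h0 h2 h4 h6
    rw [h0, h2, h4, h6]
    simp only [ff, FF, ee, ofReal_zero, mul_zero, zero_mul, exp_zero]
    ring
  rw [cp_add_cm]
  simp only [e]
  rw [intervalIntegral.integral_sub (((hi _).sub ((hi _).const_mul _)).add ((hi _).const_mul _))
    (hi _), intervalIntegral.integral_add ((hi _).sub ((hi _).const_mul _)) ((hi _).const_mul _),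
    intervalIntegral.integral_sub (hi _) ((hi _).const_mul _), intervalIntegral.integral_const_mul,
    intervalIntegral.integral_const_mul, mul_sub, mul_add, mul_sub, mul_left_comm _ 3,
    mul_left_comm _ 3, orth, orth, orth, orth]
  simp only [sub_eq_zero, eq_comm (b := n)]

lemma inversion (β : ℝ) {t : ℝ} (ht : t ∈ Ico (0 : ℝ) π) :
    HasSum (fun n : ℤ => cm β n * exp (n * t * I)) 0 := by
  have : Fact (0 < 2 * π) := ⟨by positivity⟩
  have hπ := Real.pi_pos
  let φ : ℝ → ℂ := fun s => ff (-β) (min s π)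
  have hφ : Continuous φ := (ff_cont _).comp (by fun_prop)
  let g : C(AddCircle (2 * π), ℂ) := ⟨AddCircle.liftIco (2 * π) 0 φ,
    AddCircle.liftIco_zero_continuous (by
      simp only [φ]; rw [min_eq_left hπ.le, min_eq_right (by linarith), ff_zero, ff_pi])
      hφ.continuousOn⟩
  have hg : ∀ n, fourierCoeff g n = cp (-β) n := fun n => by
    have hc : Continuous fun s : ℝ => exp (-(n * s * I)) * φ s := Continuous.mul (by fun_prop) hφ
    have e1 : ∀ s : ℝ, (fourier (-n) (s : AddCircle (0 + 2 * π - 0)) : ℂ) = exp (-(n * s * I)) :=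
      fun s => by
        rw [fourier_coe_apply]; congr 1
        have : (π : ℂ) ≠ 0 := by exact_mod_cast hπ.ne'
        push_cast; field_simp; ring
    change fourierCoeff (AddCircle.liftIco (2 * π) 0 φ) n = _
    rw [fourierCoeff_liftIco_eq, fourierCoeffOn_eq_integral]
    simp only [e1, smul_eq_mul, zero_add, sub_zero]
    rw [← intervalIntegral.integral_add_adjacent_intervals (b := π) (hc.intervalIntegrable _ _)
      (hc.intervalIntegrable _ _), cp, real_smul, one_div]
    congr 1
    rw [intervalIntegral.integral_congr (a := π) (b := 2 * π) (g := fun _ => 0) (fun s hs => by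
      rw [uIcc_of_le (by linarith)] at hs
      simp only [φ]; rw [min_eq_right hs.1, ff_pi, mul_zero])]
    simp only [intervalIntegral.integral_zero, add_zero]
    refine intervalIntegral.integral_congr fun s hs => ?_
    rw [uIcc_of_le hπ.le] at hs
    simp only [φ]; rw [min_eq_left hs.2, mul_comm]
  have hs := has_pointwise_sum_fourier_series_of_summable (f := g)
    (by rw [funext hg]; exact (cp_summable _).of_norm) ((t + π : ℝ) : AddCircle (2 * π))
  have e : g ((t + π : ℝ) : AddCircle (2 * π)) = 0 := by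
    change AddCircle.liftIco (2 * π) 0 φ _ = _
    rw [AddCircle.liftIco_zero_coe_apply ⟨by linarith [ht.1], by linarith [ht.2]⟩]
    simp only [φ]; rw [min_eq_right (by linarith [ht.1]), ff_pi]
  rw [e] at hs
  convert hs using 2 with n
  rw [hg, cm, fourier_coe_apply, smul_eq_mul, mul_right_comm, mul_comm, ← exp_add]
  congr 2
  have : (π : ℂ) ≠ 0 := by exact_mod_cast hπ.ne'
  push_cast; field_simp; ring

lemma conv_zero (β γ : ℝ) (m : ℤ) : ∑' n : ℤ, cp β (m - n) * cm γ n = 0 := by
  have hπ := Real.pi_pos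
  obtain ⟨C, hC⟩ := (isCompact_Icc (a := 0) (b := π)).exists_bound_of_continuousOn
    (ff_cont β).continuousOn
  have h := intervalIntegral.hasSum_integral_of_dominated_convergence (μ := volume) (a := 0)
    (b := π) (F := fun (n : ℤ) (t : ℝ) => ff β t * exp (-((m - n : ℤ) * t * I)) * cm γ n)
    (f := fun _ => 0) (fun n _ => C * ‖cm γ n‖)
    (fun n => Continuous.aestronglyMeasurable (((ff_cont β).mul (by fun_prop)).mul
      continuous_const))
    (fun n => ae_of_all _ fun t ht => by
      rw [uIoc_of_le hπ.le] at ht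
      rw [norm_mul, norm_mul, ← neg_mul, ← neg_mul, ← Int.cast_neg, norm_exp_int, mul_one]
      exact mul_le_mul_of_nonneg_right (hC t ⟨ht.1.le, ht.2⟩) (norm_nonneg _))
    (ae_of_all _ fun _ _ => (cm_summable γ).mul_left C) (by simp) (by
      filter_upwards [compl_mem_ae_iff.2 (measure_singleton (μ := volume) π)] with t ht h2
      rw [uIoc_of_le hπ.le] at h2
      convert! (inversion γ ⟨h2.1.le, lt_of_le_of_ne h2.2 ht⟩).mul_left
        (ff β t * exp (-(m * t * I))) using 2 with n
      · rw [show -(((m - n : ℤ) : ℂ) * t * I) = -(m * t * I) + n * t * I by push_cast; ring,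
          exp_add]
        ring
      · simp)
  have h2 := (h.mul_left (((2 * π)⁻¹ : ℝ) : ℂ)).tsum_eq
  simp only [intervalIntegral.integral_zero, mul_zero, intervalIntegral.integral_mul_const] at h2
  rw [← h2]
  simp only [cp, mul_assoc]

end Pool.Agent.P.MP_f981b0_an.PB
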